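import Pool.Agent.Lib.MP_c60e08_gt.GeoSpec

/-!
The curve in the normal gauge (module CURVE of the geometry part of MP_c60e08_gt).
-/

namespace Pool.Agent.Lib.MP_c60e08_gt.Geo

open Real Set Pool.Agent.Lib.MP_c60e08_gt.Lm

open scoped ComplexConjugate

namespace Curve

variable {E : Type*} [NormedAddCommGroup E] [NormedSpace ℝ E]

theorem isOpen_strip (a b : ℝ) : IsOpen (Ioo a b ×ˢ (univ : Set ℝ)) :=
  isOpen_Ioo.prod isOpen_univ

theorem mem_strip {a b t : ℝ} (ht : t ∈ Ioo a b) (x : ℝ) :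
    ((t, x) : ℝ × ℝ) ∈ Ioo a b ×ˢ (univ : Set ℝ) := ⟨ht, mem_univ _⟩

theorem hasFDeriv {a b : ℝ} {F : ℝ → ℝ → E}
    (hF : ContDiffOn ℝ (⊤ : ℕ∞) (fun z : ℝ × ℝ => F z.1 z.2) (Ioo a b ×ˢ univ))
    {t : ℝ} (ht : t ∈ Ioo a b) (x : ℝ) :
    HasFDerivAt (fun z : ℝ × ℝ => F z.1 z.2)
      (fderiv ℝ (fun z : ℝ × ℝ => F z.1 z.2) (t, x)) (t, x) :=
  ((hF.differentiableOn (by simp)).differentiableAt
    ((isOpen_strip a b).mem_nhds (mem_strip ht x))).hasFDerivAt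

theorem hasDeriv_x {a b : ℝ} {F : ℝ → ℝ → E}
    (hF : ContDiffOn ℝ (⊤ : ℕ∞) (fun z : ℝ × ℝ => F z.1 z.2) (Ioo a b ×ˢ univ))
    {t : ℝ} (ht : t ∈ Ioo a b) (x : ℝ) :
    HasDerivAt (F t) (fderiv ℝ (fun z : ℝ × ℝ => F z.1 z.2) (t, x) (0, 1)) x := by
  have h1 : HasDerivAt (fun x' : ℝ => ((t, x') : ℝ × ℝ)) (0, 1) x :=
    (hasDerivAt_const x t).prodMk (hasDerivAt_id x)
  exact HasFDerivAt.comp_hasDerivAt (f := fun x' : ℝ => ((t, x') : ℝ × ℝ)) x
    (hasFDeriv hF ht x) h1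

theorem hasDeriv_t {a b : ℝ} {F : ℝ → ℝ → E}
    (hF : ContDiffOn ℝ (⊤ : ℕ∞) (fun z : ℝ × ℝ => F z.1 z.2) (Ioo a b ×ˢ univ))
    {t : ℝ} (ht : t ∈ Ioo a b) (x : ℝ) :
    HasDerivAt (fun s => F s x) (fderiv ℝ (fun z : ℝ × ℝ => F z.1 z.2) (t, x) (1, 0)) t := by
  have h1 : HasDerivAt (fun s : ℝ => ((s, x) : ℝ × ℝ)) (1, 0) t :=
    (hasDerivAt_id t).prodMk (hasDerivAt_const t x)
  exact HasFDerivAt.comp_hasDerivAt (f := fun s : ℝ => ((s, x) : ℝ × ℝ)) t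
    (hasFDeriv hF ht x) h1

theorem smooth_dx {a b : ℝ} {F : ℝ → ℝ → E}
    (hF : ContDiffOn ℝ (⊤ : ℕ∞) (fun z : ℝ × ℝ => F z.1 z.2) (Ioo a b ×ˢ univ)) :
    ContDiffOn ℝ (⊤ : ℕ∞) (fun z : ℝ × ℝ => deriv (F z.1) z.2) (Ioo a b ×ˢ univ) := by
  have h1 : ContDiffOn ℝ (⊤ : ℕ∞)
      (fun z : ℝ × ℝ => fderiv ℝ (fun z : ℝ × ℝ => F z.1 z.2) z (0, 1)) (Ioo a b ×ˢ univ) :=
    (hF.fderiv_of_isOpen (isOpen_strip a b) (by simp)).clm_apply contDiffOn_const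
  refine h1.congr ?_
  rintro ⟨t, x⟩ ⟨ht, -⟩
  exact (hasDeriv_x hF ht x).deriv

/-- chain rule along `s ↦ (s, φ s)` -/
theorem hasDeriv_chain {a b : ℝ} {F : ℝ → ℝ → ℝ}
    (hF : ContDiffOn ℝ (⊤ : ℕ∞) (fun z : ℝ × ℝ => F z.1 z.2) (Ioo a b ×ˢ univ))
    {t : ℝ} (ht : t ∈ Ioo a b) {ψ : ℝ → ℝ} {ψ' Ft Fx : ℝ} (hψ : HasDerivAt ψ ψ' t)
    (h1 : HasDerivAt (fun s => F s (ψ t)) Ft t) (h2 : HasDerivAt (F t) Fx (ψ t)) :
    HasDerivAt (fun s => F s (ψ s)) (Ft + Fx * ψ') t := by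
  have e1 := (hasDeriv_t hF ht (ψ t)).unique h1
  have e2 := (hasDeriv_x hF ht (ψ t)).unique h2
  have h3 : HasDerivAt (fun s : ℝ => ((s, ψ s) : ℝ × ℝ)) (1, ψ') t :=
    (hasDerivAt_id t).prodMk hψ
  have h4 := HasFDerivAt.comp_hasDerivAt (f := fun s : ℝ => ((s, ψ s) : ℝ × ℝ)) t
    (hasFDeriv hF ht (ψ t)) h3
  refine h4.congr_deriv ?_
  have h5 : ((1, ψ') : ℝ × ℝ) = (1, 0) + ψ' • (0, 1) := by simp
  rw [h5, map_add, map_smul, e1, e2, smul_eq_mul]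
  ring

/-- derivative of the cube -/
theorem cube {f : ℝ → ℂ} {f' g' : ℂ} {g : ℝ → ℂ} {x : ℝ} (hf : HasDerivAt f f' x)
    (hg : HasDerivAt g g' x) (h : ∀ᶠ y in nhds x, f y ^ 3 = g y) : 3 * f x ^ 2 * f' = g' := by
  have h1 : HasDerivAt (fun y => f y ^ 3) (3 * f x ^ 2 * f') x := by
    have := hf.fun_pow 3
    refine this.congr_deriv ?_
    norm_num
  exact (h1.congr_of_eventuallyEq (h.mono fun y hy => hy.symm)).unique hg

theorem zZ_periodic (A Φ : ℝ) : zZ A (Φ + 2 * π) = zZ A Φ := by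
  unfold zZ
  congr 1
  have : ((A : ℂ) + ((Φ + 2 * π : ℝ) : ℂ) * Complex.I)
      = (A + Φ * Complex.I) + 2 * π * Complex.I := by
    push_cast; ring
  rw [this]
  exact Complex.exp_periodic _

/-- derivative of `zZ` along a curve of parameters -/
theorem hasDeriv_zZ {A Φ : ℝ → ℝ} {A' Φ' x : ℝ} (hA : HasDerivAt A A' x)
    (hΦ : HasDerivAt Φ Φ' x) :
    HasDerivAt (fun s => zZ (A s) (Φ s))
      (-(Complex.exp (A x + Φ x * Complex.I) * (A' + Φ' * Complex.I))) x := by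
  have h1 : HasDerivAt (fun s => ((A s : ℂ) + (Φ s : ℂ) * Complex.I))
      ((A' : ℂ) + (Φ' : ℂ) * Complex.I) x :=
    hA.ofReal_comp.add (hΦ.ofReal_comp.mul_const _)
  have h2 := (h1.cexp).const_sub 1
  exact h2

end Curve

open Curve in
theorem curve : RootStmt → SpeedStmt → PolarAlgStmt → GBStmt → CurveStmt := by
  intro hroot hspeed hpa hgb T y φ hT hpol hneg hy0 hφ hφt hφper hφpos
  -- smoothness of the composed function
  have hA : CS (⊤ : ℕ∞) 0 T (fun t x => y 0 t (φ t x)) := by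
    have h1 : ContDiffOn ℝ (⊤ : ℕ∞) (fun z : ℝ × ℝ => ((z.1, φ z.1 z.2) : ℝ × ℝ))
        (Ioo 0 T ×ˢ univ) := contDiffOn_fst.prodMk hφ
    exact ContDiffOn.comp (g := fun z : ℝ × ℝ => y 0 z.1 z.2) hy0 h1
      (fun z hz => ⟨hz.1, mem_univ _⟩)
  have hIco : ∀ {t}, t ∈ Ioo 0 T → t ∈ Ico 0 T := fun h => ⟨h.1.le, h.2⟩
  have hrh : ∀ t ∈ Ioo 0 T, ∀ x, sin (φ t x) = 0 →
      exp (y 0 t (φ t x)) * cos (φ t x) < 1 := by
    intro t ht x hs
    rcases (Real.sin_eq_zero_iff_cos_eq).1 hs with hc | hc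
    · obtain ⟨n, hn⟩ := (Real.cos_eq_one_iff _).1 hc
      have hper : Function.Periodic (y 0 t) (2 * π) := hpol.per t (hIco ht)
      have h0 : y 0 t (φ t x) = y 0 t 0 := by
        rw [← hn]
        exact hper.int_mul_eq n
      rw [hc, h0, mul_one]
      rw [← Real.exp_zero]
      exact Real.exp_lt_exp.2 (hneg t (hIco ht))
    · rw [hc]
      have := Real.exp_pos (y 0 t (φ t x))
      linarith
  obtain ⟨R, hR3, hRne, hRsm⟩ := hroot 0 T (fun t x => y 0 t (φ t x)) φ hA hφ hrh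
  set Z : ℝ → ℝ → ℂ := fun t x => zZ (y 0 t (φ t x)) (φ t x) with hZ
  set c : ℝ → ℝ → ℂ := fun t x => R (Z t x) with hc
  have hcsm : ContDiffOn ℝ (⊤ : ℕ∞) (fun z : ℝ × ℝ => c z.1 z.2) (Ioo 0 T ×ˢ univ) := hRsm
  have hc1sm := smooth_dx hcsm
  refine ⟨c, fun t x => deriv (c t) x, fun t x => deriv (fun x => deriv (c t) x) x, hcsm, ?_⟩
  intro t ht x
  have hcx : ∀ x, HasDerivAt (c t) (deriv (c t) x) x := fun x =>
    (hasDeriv_x hcsm ht x).differentiableAt.hasDerivAt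
  have hc1x : ∀ x, HasDerivAt (fun x => deriv (c t) x) (deriv (fun x => deriv (c t) x) x) x :=
    fun x => (hasDeriv_x (F := fun t x => deriv (c t) x) hc1sm ht x).differentiableAt.hasDerivAt
  have hct : HasDerivAt (fun s => c s x) (deriv (fun s => c s x) t) t :=
    (hasDeriv_t hcsm ht x).differentiableAt.hasDerivAt
  have hφ1sm := smooth_dx hφ
  have hφx : ∀ x, HasDerivAt (φ t) (deriv (φ t) x) x := fun x =>
    (hasDeriv_x hφ ht x).differentiableAt.hasDerivAt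
  have hφxx : ∀ x, HasDerivAt (fun x => deriv (φ t) x) (deriv (fun x => deriv (φ t) x) x) x :=
    fun x => (hasDeriv_x (F := fun t x => deriv (φ t) x) hφ1sm ht x).differentiableAt.hasDerivAt
  have hAx : ∀ x, HasDerivAt (fun x => y 0 t (φ t x)) (y 1 t (φ t x) * deriv (φ t) x) x :=
    fun x => (hpol.dx 0 t (hIco ht) (φ t x)).comp x (hφx x)
  have hA1x : ∀ x, HasDerivAt (fun x => y 1 t (φ t x)) (y 2 t (φ t x) * deriv (φ t) x) x :=
    fun x => (hpol.dx 1 t (hIco ht) (φ t x)).comp x (hφx x)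
  have hAt := hasDeriv_chain hy0 ht (hφt t ht x) (hpol.dt t ht (φ t x))
    (hpol.dx 0 t (hIco ht) (φ t x))
  -- first derivative of Z
  have hZx : ∀ x, HasDerivAt (Z t) (-(Complex.exp (y 0 t (φ t x) + φ t x * Complex.I) *
      ((y 1 t (φ t x) + Complex.I) * ((deriv (φ t) x : ℝ) : ℂ)))) x := by
    intro x
    refine (hasDeriv_zZ (hAx x) (hφx x)).congr_deriv ?_
    push_cast
    ring
  have hZt := hasDeriv_zZ hAt (hφt t ht x)
  have hZxx : HasDerivAt (fun x => -(Complex.exp (y 0 t (φ t x) + φ t x * Complex.I) *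
      ((y 1 t (φ t x) + Complex.I) * ((deriv (φ t) x : ℝ) : ℂ))))
      (-(Complex.exp (y 0 t (φ t x) + φ t x * Complex.I) *
        (((y 1 t (φ t x) : ℂ) + Complex.I) ^ 2 * ((deriv (φ t) x : ℝ) : ℂ) ^ 2 +
          (y 2 t (φ t x) : ℂ) * ((deriv (φ t) x : ℝ) : ℂ) ^ 2 +
          ((y 1 t (φ t x) : ℂ) + Complex.I) * ((deriv (fun x => deriv (φ t) x) x : ℝ) : ℂ)))) x := by
    have h1 : HasDerivAt (fun x => ((y 0 t (φ t x) : ℂ) + (φ t x : ℂ) * Complex.I))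
        (((y 1 t (φ t x) * deriv (φ t) x : ℝ) : ℂ) + ((deriv (φ t) x : ℝ) : ℂ) * Complex.I) x :=
      (hAx x).ofReal_comp.add ((hφx x).ofReal_comp.mul_const _)
    have h2 := h1.cexp
    have h3 : HasDerivAt (fun x => ((y 1 t (φ t x) : ℂ) + Complex.I))
        ((y 2 t (φ t x) * deriv (φ t) x : ℝ) : ℂ) x := (hA1x x).ofReal_comp.add_const _
    have h4 := (h2.mul (h3.mul (hφxx x).ofReal_comp)).neg
    refine h4.congr_deriv ?_
    simp only [Pi.mul_apply]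
    push_cast
    ring
  -- relations between c and Z
  have hcube : ∀ x, c t x ^ 3 = Z t x := fun x => hR3 t ht x
  have hk1 : ∀ x, 3 * c t x ^ 2 * deriv (c t) x =
      -(Complex.exp (y 0 t (φ t x) + φ t x * Complex.I) *
      ((y 1 t (φ t x) + Complex.I) * ((deriv (φ t) x : ℝ) : ℂ))) := fun x =>
    cube (hcx x) (hZx x) (Filter.Eventually.of_forall hcube)
  have hk2 : 6 * c t x * deriv (c t) x ^ 2 + 3 * c t x ^ 2 * deriv (fun x => deriv (c t) x) x =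
      (-(Complex.exp (y 0 t (φ t x) + φ t x * Complex.I) *
        (((y 1 t (φ t x) : ℂ) + Complex.I) ^ 2 * ((deriv (φ t) x : ℝ) : ℂ) ^ 2 +
          (y 2 t (φ t x) : ℂ) * ((deriv (φ t) x : ℝ) : ℂ) ^ 2 +
          ((y 1 t (φ t x) : ℂ) + Complex.I) * ((deriv (fun x => deriv (φ t) x) x : ℝ) : ℂ)))) := by
    have h1 : HasDerivAt (fun x => 3 * c t x ^ 2 * deriv (c t) x)
        (6 * c t x * deriv (c t) x ^ 2 + 3 * c t x ^ 2 * deriv (fun x => deriv (c t) x) x) x := by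
      have := (((hcx x).fun_pow 2).const_mul 3).mul (hc1x x)
      refine this.congr_deriv ?_
      norm_num
      ring
    have h2 : (fun x => 3 * c t x ^ 2 * deriv (c t) x) =
      (fun x => -(Complex.exp (y 0 t (φ t x) + φ t x * Complex.I) *
      ((y 1 t (φ t x) + Complex.I) * ((deriv (φ t) x : ℝ) : ℂ)))) := funext hk1
    rw [h2] at h1
    exact h1.unique hZxx
  have hk3 : 3 * c t x ^ 2 * deriv (fun s => c s x) t = _ :=
    cube (f := fun s => c s x) (g := fun s => Z s x) (x := t) hct hZt (Filter.eventually_of_mem (isOpen_Ioo.mem_nhds ht) fun s hs => hR3 s hs x)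
  have hcne : c t x ≠ 0 := by
    intro h0
    have := hcube x
    rw [h0] at this
    exact hRne t ht x (by simpa using this.symm)
  obtain ⟨g1, g2, g3, g4, g5⟩ := hpa (y 0 t (φ t x)) (y 1 t (φ t x)) (y 2 t (φ t x))
    (fS (uu (φ t x) (y 0 t (φ t x))) * exp (-(2 * y 0 t (φ t x))) *
      (y 2 t (φ t x) / (1 + (y 1 t (φ t x)) ^ 2) - 1)) (φ t x) (deriv (φ t) x)
    (deriv (fun x => deriv (φ t) x) x) (gB y t (φ t x)) (hφpos t ht x).ne'
    (hpol.pos t (hIco ht) (φ t x)) rfl (by unfold gB; ring) _ (Z t x) _ _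
    _ rfl rfl rfl rfl rfl
  have hc1ne : deriv (c t) x ≠ 0 := by
    intro h0
    have := hk1 x
    rw [h0, mul_zero] at this
    exact g2 this.symm
  obtain ⟨s1, s2, s3⟩ := hspeed (c t x) (deriv (c t) x) (deriv (fun x => deriv (c t) x) x)
    (deriv (fun s => c s x) t) (Z t x) _ _ _ hcne hc1ne (hcube x) (hk1 x) hk2
    (by rw [hk3]; push_cast; ring) g3
  refine ⟨?_, hcne, hc1ne, hcx x, hc1x x, ?_, ?_, ?_, ?_⟩
  · show R (zZ (y 0 t (φ t (x + 2 * π))) (φ t (x + 2 * π))) = R (zZ (y 0 t (φ t x)) (φ t x))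
    rw [hφper t ht x, hpol.per t (hIco ht), zZ_periodic]
  · rw [← s1]; exact hct
  · rw [← s1]
    rw [g1] at s2
    rw [s2, g4]
    rfl
  · rw [s3, g1]
  · intro h0
    have ha1 : y 1 t (φ t x) = 0 := by
      rw [h0]
      have h1 := hpol.dx 0 t (hIco ht) 0
      have h2 : HasDerivAt (fun p => y 0 t (-p)) (-(y 1 t 0)) 0 := by
        have h3 : HasDerivAt (y 0 t) (y 1 t 0) (-0) := by simpa using h1
        have := h3.comp (0 : ℝ) (hasDerivAt_neg (0 : ℝ))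
        refine this.congr_deriv ?_
        ring
      have h4 : (fun p => y 0 t (-p)) = y 0 t := funext fun p => hpol.even t (hIco ht) p
      rw [h4] at h2
      have := h2.unique h1
      linarith
    have h6 := g5 h0 ha1
    rw [← hk1 x, ← hcube x] at h6
    have h7 : c t x ^ 3 * conj (3 * c t x ^ 2 * deriv (c t) x) =
        ((3 * Complex.normSq (c t x) ^ 2 : ℝ) : ℂ) * (c t x * conj (deriv (c t) x)) := by
      have h8 : ((Complex.normSq (c t x) : ℝ) : ℂ) = c t x * conj (c t x) :=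
        (Complex.mul_conj _).symm
      push_cast
      rw [h8, map_mul, map_mul, map_pow]
      have : (conj (3 : ℂ)) = 3 := Complex.conj_ofNat 3
      rw [this]
      ring
    rw [h7, Complex.re_ofReal_mul] at h6
    have h9 : 0 < 3 * Complex.normSq (c t x) ^ 2 := by
      have := Complex.normSq_pos.2 hcne
      positivity
    exact (mul_eq_zero.1 h6).resolve_left h9.ne'

end Pool.Agent.Lib.MP_c60e08_gt.Geo
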