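import Pool.Agent.Lib.MP_c60e08_gt.GeoSpec

/-!
Assembly of the geometry part: from the curve in normal gauge to the Lagrangian mean curvature
flow.
-/

namespace Pool.Agent.Lib.MP_c60e08_gt.Geo

open Real Set Pool.Agent.Lib.MP_c60e08_gt.Lm

open scoped ComplexConjugate

namespace FinA

lemma normSq_exp (θ : ℝ) : Complex.normSq (Complex.exp (θ * Complex.I)) = 1 := by
  rw [Complex.normSq_eq_norm_sq, Complex.norm_exp_ofReal_mul_I]; norm_num

lemma normSq_tU (x : Fin 3 → ℝ) (j : Fin 3) : Complex.normSq (tU x j) = 1 := by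
  fin_cases j
  · simpa [tU] using normSq_exp (x 1)
  · simpa [tU] using normSq_exp (x 2)
  · have := normSq_exp (-(x 1 + x 2))
    simpa [tU] using this

lemma gram_eq (hPd : PdStmt) (c c1 : ℝ → ℂ) (h1 : ∀ s, HasDerivAt c (c1 s) s)
    (x : Fin 3 → ℝ) : gram (tor c) x = gramV (tP (tU x) (c (x 0)) (c1 (x 0))) := by
  ext i j
  simp only [gram, gramV, Matrix.of_apply, hPd c c1 h1]

lemma secFF_eq (hPd : PdStmt) (hPd2 : Pd2Stmt) (c c1 c2 : ℝ → ℂ)
    (h1 : ∀ s, HasDerivAt c (c1 s) s) (h2 : ∀ s, HasDerivAt c1 (c2 s) s) (x : Fin 3 → ℝ)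
    (i j : Fin 3) : secFF (tor c) i j x =
      secV (tP (tU x) (c (x 0)) (c1 (x 0))) (tQ (tU x) (c (x 0)) (c1 (x 0)) (c2 (x 0))) i j := by
  simp only [secFF, secV, gram_eq hPd c c1 h1, hPd2 c c1 c2 h1 h2, hPd c c1 h1]

lemma mc_eq (hPd : PdStmt) (hPd2 : Pd2Stmt) (c c1 c2 : ℝ → ℂ)
    (h1 : ∀ s, HasDerivAt c (c1 s) s) (h2 : ∀ s, HasDerivAt c1 (c2 s) s) (x : Fin 3 → ℝ) :
    meanCurv (tor c) x =
      mcV (tP (tU x) (c (x 0)) (c1 (x 0))) (tQ (tU x) (c (x 0)) (c1 (x 0)) (c2 (x 0))) := by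
  simp only [meanCurv, mcV, gram_eq hPd c c1 h1, secFF_eq hPd hPd2 c c1 c2 h1 h2]

lemma ns_eq (hPd : PdStmt) (hPd2 : Pd2Stmt) (c c1 c2 : ℝ → ℂ)
    (h1 : ∀ s, HasDerivAt c (c1 s) s) (h2 : ∀ s, HasDerivAt c1 (c2 s) s) (x : Fin 3 → ℝ) :
    normSqA (tor c) x =
      nsV (tP (tU x) (c (x 0)) (c1 (x 0))) (tQ (tU x) (c (x 0)) (c1 (x 0)) (c2 (x 0))) := by
  simp only [normSqA, nsV, gram_eq hPd c c1 h1, secFF_eq hPd hPd2 c c1 c2 h1 h2]

lemma ip_speed (s : ℂ) (u : Fin 3 → ℂ) (hu : ∀ j, Complex.normSq (u j) = 1) :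
    ip (fun j => s * u j) (fun j => s * u j) = 3 * Complex.normSq s := by
  have h : ∀ j, (s * u j * (starRingEnd ℂ) (s * u j)).re = Complex.normSq s := by
    intro j
    rw [Complex.mul_conj, Complex.ofReal_re, map_mul, hu j, mul_one]
  simp only [ip, h, Finset.sum_const, Finset.card_univ, Fintype.card_fin, nsmul_eq_mul]
  norm_num

/-- `tU` is `2π`-periodic -/
lemma tU_per (x : Fin 3 → ℝ) (i : Fin 3) : tU (x + Pi.single i (2 * π)) = tU x := by
  have h1 : ∀ z : ℂ, Complex.exp (z + 2 * π * Complex.I) = Complex.exp z :=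
    fun z => Complex.exp_periodic z
  have h2 : ∀ z : ℂ, Complex.exp (z - 2 * π * Complex.I) = Complex.exp z :=
    fun z => Complex.exp_periodic.sub_eq z
  fin_cases i
  · simp [tU]
  · simp only [tU]
    congr 1
    · simp only [Pi.add_apply, Pi.single_apply]
      simp only [Fin.mk_one, Fin.isValue, if_true]
      push_cast
      rw [show ((x 1 : ℂ) + 2 * π) * Complex.I = x 1 * Complex.I + 2 * π * Complex.I by ring, h1]
    · congr 1
      · simp
      · congr 1
        simp only [Pi.add_apply, Pi.single_apply]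
        simp only [Fin.mk_one, Fin.isValue, if_true]
        have e : ((2 : Fin 3) = 1) = False := by simp
        simp only [e, if_false]
        push_cast
        rw [show (-((x 1 : ℂ) + 2 * π + (x 2 + 0))) * Complex.I
          = -(x 1 + x 2) * Complex.I - 2 * π * Complex.I by ring, h2]
  · simp only [tU]
    congr 1
    · simp
    · congr 1
      · simp only [Pi.add_apply, Pi.single_apply]
        simp only [Fin.reduceFinMk, Fin.isValue, if_true]
        push_cast
        rw [show ((x 2 : ℂ) + 2 * π) * Complex.I = x 2 * Complex.I + 2 * π * Complex.I by ring, h1]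
      · congr 1
        simp only [Pi.add_apply, Pi.single_apply]
        simp only [Fin.reduceFinMk, Fin.isValue, if_true]
        have e : ((1 : Fin 3) = 2) = False := by simp
        simp only [e, if_false]
        push_cast
        rw [show (-((x 1 : ℂ) + 0 + (x 2 + 2 * π))) * Complex.I
          = -(x 1 + x 2) * Complex.I - 2 * π * Complex.I by ring, h2]

lemma contDiff_tU (j : Fin 3) : ContDiff ℝ (⊤ : ℕ∞) (fun x : Fin 3 → ℝ => tU x j) := by
  have hx : ∀ k : Fin 3, ContDiff ℝ (⊤ : ℕ∞) (fun x : Fin 3 → ℝ => (x k : ℂ)) := fun k =>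
    Complex.ofRealCLM.contDiff.comp (contDiff_apply ℝ ℝ k)
  fin_cases j
  · exact ((hx 1).mul contDiff_const).cexp
  · exact ((hx 2).mul contDiff_const).cexp
  · exact ((((hx 1).add (hx 2)).neg).mul contDiff_const).cexp

/-- the flow reaches the tip -/
lemma exists_zero (f : ℝ → ℝ) (hf : Continuous f) (hp : ∀ x, f (x + 2 * π) = f x + 2 * π) :
    ∃ x, f x = 0 := by
  have hn : ∀ (n : ℕ), f (n * (2 * π)) = f 0 + n * (2 * π) := by
    intro n
    induction n with
    | zero => simp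
    | succ n ih =>
      have := hp (n * (2 * π))
      rw [show ((n + 1 : ℕ) : ℝ) * (2 * π) = n * (2 * π) + 2 * π by push_cast; ring, this, ih]
      ring
  have hn' : ∀ (n : ℕ), f (-(n * (2 * π))) = f 0 - n * (2 * π) := by
    intro n
    induction n with
    | zero => simp
    | succ n ih =>
      have := hp (-(((n + 1 : ℕ) : ℝ) * (2 * π)))
      rw [show -(((n + 1 : ℕ) : ℝ) * (2 * π)) + 2 * π = -(n * (2 * π)) by push_cast; ring, ih]
        at this
      push_cast at this ⊢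
      linarith
  obtain ⟨n, hn1⟩ := exists_nat_ge (|f 0| / (2 * π))
  have hpi : (0 : ℝ) < 2 * π := by positivity
  rw [div_le_iff₀ hpi] at hn1
  have h1 : f (-(n * (2 * π))) ≤ 0 := by rw [hn']; linarith [le_abs_self (f 0)]
  have h2 : 0 ≤ f (n * (2 * π)) := by rw [hn]; linarith [neg_abs_le (f 0)]
  exact mem_range_of_exists_le_of_exists_ge hf ⟨_, h1⟩ ⟨_, h2⟩

/-- the velocity bound extends from `[0,π]` to all `p` -/
lemma bound_all (T K : ℝ) (y : ℕ → ℝ → ℝ → ℝ) (hy : PolarSol T y)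
    (hper : ∀ m, ∀ t ∈ Ico 0 T, ∀ p, y m t (p + 2 * π) = y m t p)
    (hv : ∀ t ∈ Ico 0 T, ∀ p ∈ Icc 0 π, ((flowOf y).v t p) ^ 2 ≤ K * fS (uu p (y 0 t p)))
    (t : ℝ) (ht : t ∈ Ico 0 T) (p : ℝ) : pv y t p ^ 2 ≤ K * fS (uu p (y 0 t p)) := by
  have he0 := hy.even t ht
  have he1 : ∀ q, y 1 t (-q) = -(y 1 t q) := by
    intro q
    have h1 : HasDerivAt (y 0 t) (y 1 t (-q)) (-q) := hy.dx 0 t ht (-q)
    have h2 : HasDerivAt (fun x => y 0 t (-x)) (-(y 1 t (-q))) q := by
      have := HasDerivAt.comp q h1 (hasDerivAt_neg q)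
      simpa using! this
    have h3 : (fun x => y 0 t (-x)) = y 0 t := funext he0
    rw [h3] at h2
    have := h2.unique (hy.dx 0 t ht q)
    linarith
  have he2 : ∀ q, y 2 t (-q) = y 2 t q := by
    intro q
    have h1 : HasDerivAt (y 1 t) (y 2 t (-q)) (-q) := hy.dx 1 t ht (-q)
    have h2 : HasDerivAt (fun x => y 1 t (-x)) (-(y 2 t (-q))) q := by
      have := HasDerivAt.comp q h1 (hasDerivAt_neg q)
      simpa using! this
    have h3 : (fun x => y 1 t (-x)) = fun x => -(y 1 t x) := funext he1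
    rw [h3] at h2
    have := h2.unique (hy.dx 1 t ht q).neg
    linarith
  have key : ∀ q ∈ Icc 0 π, pv y t q ^ 2 ≤ K * fS (uu q (y 0 t q)) := hv t ht
  have key2 : ∀ q ∈ Icc (-π) π, pv y t q ^ 2 ≤ K * fS (uu q (y 0 t q)) := by
    intro q hq
    rcases le_total 0 q with h | h
    · exact key q ⟨h, hq.2⟩
    · have := key (-q) ⟨by linarith, by linarith [hq.1]⟩
      have e1 : pv y t (-q) = pv y t q := by
        simp only [pv, pg, uu, he0, he1, he2, cos_neg, neg_sq]
      have e2 : uu (-q) (y 0 t (-q)) = uu q (y 0 t q) := by simp only [uu, he0, cos_neg]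
      rwa [e1, e2] at this
  -- periodicity
  have hP : Function.Periodic (fun q => K * fS (uu q (y 0 t q)) - pv y t q ^ 2) (2 * π) := by
    intro q
    simp only [pv, pg, uu, hper _ t ht, cos_add_two_pi]
  obtain ⟨q, hq, hq2⟩ := hP.exists_mem_Ico (by positivity) p (-π)
  have hq' : q ∈ Icc (-π) π := ⟨hq.1, by linarith [hq.2]⟩
  have := key2 q hq'
  have h3 : K * fS (uu p (y 0 t p)) - pv y t p ^ 2 = K * fS (uu q (y 0 t q)) - pv y t q ^ 2 := hq2
  linarith

end FinA

open FinA in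
/-- The geometry part. -/
theorem fin : GaugeStmt → GBStmt → CurveStmt → PdStmt → Pd2Stmt → McStmt → NsStmt → SyStmt →
    LiStmt → FinStmt := by
  intro hG hGB hC hPd hPd2 hMc hNs hSy hLi hSm T K y hT hy htip hd hv
  have hs0 : CS (⊤ : ℕ∞) 0 T (y 0) := hSm T y hy
  obtain ⟨hm, hgB, hper, hgper⟩ := hGB T y hT hy hs0
  obtain ⟨φ, hφs, hφt, hφp, hφpos⟩ :=
    hG 0 T (T / 2) (gB y) ⟨by linarith, by linarith⟩ hgB hgper
  obtain ⟨c, c1, c2, hcs, hc⟩ := hC T y φ hT hy htip hs0 hφs hφt hφp hφpos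
  have hmem : ∀ t ∈ Ico (0 : ℝ) (T / 2), T / 2 + t ∈ Ioo 0 T := fun t ht =>
    ⟨by linarith [ht.1], by linarith [ht.2]⟩
  have hd1 : ∀ t ∈ Ico (0 : ℝ) (T / 2), ∀ s, HasDerivAt (c (T / 2 + t)) (c1 (T / 2 + t) s) s :=
    fun t ht s => (hc _ (hmem t ht) s).2.2.2.1
  have hd2 : ∀ t ∈ Ico (0 : ℝ) (T / 2), ∀ s,
      HasDerivAt (c1 (T / 2 + t)) (c2 (T / 2 + t) s) s :=
    fun t ht s => (hc _ (hmem t ht) s).2.2.2.2.1
  have hc0 : ∀ t ∈ Ico (0 : ℝ) (T / 2), ∀ s, c (T / 2 + t) s ≠ 0 :=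
    fun t ht s => (hc _ (hmem t ht) s).2.1
  have hc1 : ∀ t ∈ Ico (0 : ℝ) (T / 2), ∀ s, c1 (T / 2 + t) s ≠ 0 :=
    fun t ht s => (hc _ (hmem t ht) s).2.2.1
  have hmc : ∀ t ∈ Ico (0 : ℝ) (T / 2), ∀ x : Fin 3 → ℝ,
      meanCurv (fun x => tor (c (T / 2 + t)) x) x = fun j =>
        spd (c (T / 2 + t) (x 0)) (c1 (T / 2 + t) (x 0)) (c2 (T / 2 + t) (x 0)) * tU x j := by
    intro t ht x
    have h := mc_eq hPd hPd2 _ _ _ (hd1 t ht) (hd2 t ht) x
    rw [hMc _ _ _ _ (normSq_tU x) (hc0 t ht _) (hc1 t ht _)] at h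
    exact h
  refine ⟨T / 2, T / 2, fun s x => tor (c (T / 2 + s)) x, by linarith, by linarith, ?_, ?_, ?_,
    ?_, ?_, ?_, ?_⟩
  · -- smoothness
    rw [contDiffOn_pi]
    intro j
    have h1 : ContDiffOn ℝ (⊤ : ℕ∞) (fun z : ℝ × (Fin 3 → ℝ) => c (T / 2 + z.1) (z.2 0))
        (Ioo (-(T / 2)) (T / 2) ×ˢ univ) := by
      have hin : ContDiff ℝ (⊤ : ℕ∞)
          (fun z : ℝ × (Fin 3 → ℝ) => ((T / 2 + z.1, z.2 0) : ℝ × ℝ)) :=
        (contDiff_const.add contDiff_fst).prodMk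
          ((contDiff_apply ℝ ℝ (0 : Fin 3)).comp contDiff_snd)
      refine hcs.comp hin.contDiffOn ?_
      rintro ⟨s, x⟩ ⟨hs, -⟩
      exact ⟨⟨by have := hs.1; simp only at this ⊢; linarith,
        by have := hs.2; simp only at this ⊢; linarith⟩, mem_univ _⟩
    exact h1.mul ((contDiff_tU j).comp contDiff_snd).contDiffOn
  · -- periodicity
    intro t ht x i
    have hcx : c (T / 2 + t) ((x + Pi.single i (2 * π) : Fin 3 → ℝ) 0)
        = c (T / 2 + t) (x 0) := by
      simp only [Pi.add_apply, Pi.single_apply]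
      split_ifs with h
      · exact (hc _ (hmem t ht) _).1
      · rw [add_zero]
    funext j
    show c (T / 2 + t) ((x + Pi.single i (2 * π) : Fin 3 → ℝ) 0)
      * tU (x + Pi.single i (2 * π)) j = c (T / 2 + t) (x 0) * tU x j
    rw [hcx, tU_per]
  · -- immersion
    intro t ht x
    have h := hLi (tU x) _ _ (normSq_tU x) (hc0 t ht (x 0)) (hc1 t ht (x 0))
    have e : (fun i => pd (fun x => tor (c (T / 2 + t)) x) i x)
        = fun i => tP (tU x) (c (T / 2 + t) (x 0)) (c1 (T / 2 + t) (x 0)) i := by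
      funext i
      exact hPd _ _ (hd1 t ht) x i
    rw [e]
    exact h
  · -- Lagrangian
    intro t ht x i j
    have e : ∀ i, pd (fun x => tor (c (T / 2 + t)) x) i x
        = tP (tU x) (c (T / 2 + t) (x 0)) (c1 (T / 2 + t) (x 0)) i :=
      fun i => hPd _ _ (hd1 t ht) x i
    rw [e, e]
    exact hSy _ _ _ (normSq_tU x) i j
  · -- flow
    intro t ht x
    rw [hmc t ht x]
    rw [hasDerivAt_pi]
    intro j
    have h := (hc _ (hmem t ht) (x 0)).2.2.2.2.2.1
    have h2 : HasDerivAt (fun s => T / 2 + s) 1 t := by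
      simpa using (hasDerivAt_id t).const_add (T / 2)
    have h3 := (HasDerivAt.scomp t h h2).mul_const (tU x j)
    simpa using! h3
  · -- mean curvature bounded
    refine ⟨K, ?_⟩
    intro t ht x
    rw [hmc t ht x, ip_speed _ _ (normSq_tU x)]
    have h := (hc _ (hmem t ht) (x 0)).2.2.2.2.2.2.1
    have hb := bound_all T K y hy hper hv (T / 2 + t)
      ⟨(hmem t ht).1.le, (hmem t ht).2⟩ (φ (T / 2 + t) (x 0))
    have hpos := hy.pos (T / 2 + t) ⟨(hmem t ht).1.le, (hmem t ht).2⟩ (φ (T / 2 + t) (x 0))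
    have hfS : 0 < fS (uu (φ (T / 2 + t) (x 0)) (y 0 (T / 2 + t) (φ (T / 2 + t) (x 0)))) := by
      unfold fS
      positivity
    rw [← h] at hb
    exact le_of_mul_le_mul_right hb hfS
  · -- type II
    intro C
    have hKpos : 0 < K := by
      have h1 := hd 0 ⟨le_rfl, hT⟩
      have h2 : 0 < 1 - exp (y 0 0 0) := by
        have := Real.exp_lt_one_iff.mpr (htip 0 ⟨le_rfl, hT⟩)
        linarith
      have h3 : 0 < (K * (T - 0)) ^ 3 := lt_of_lt_of_le h2 h1
      have h4 : 0 < K * (T - 0) := by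
        by_contra hcon
        push Not at hcon
        have : (K * (T - 0)) ^ 3 ≤ 0 := by
          have := pow_nonneg (neg_nonneg.mpr hcon) 3
          nlinarith [this]
        linarith
      rw [sub_zero] at h4
      exact pos_of_mul_pos_left h4 hT.le
    refine ⟨max 0 (T / 2 - 4 / (3 * K ^ 2 * (|C| + 1))), ?_, ?_⟩
    · apply max_lt (by linarith)
      have : 0 < 4 / (3 * K ^ 2 * (|C| + 1)) := by positivity
      linarith
    intro t ht ht0
    have ht1 : T / 2 - 4 / (3 * K ^ 2 * (|C| + 1)) < t := lt_of_le_of_lt (le_max_right _ _) ht0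
    have hφc : Continuous (φ (T / 2 + t)) := by
      rw [continuous_iff_continuousAt]
      intro x
      have h1 : DifferentiableAt ℝ (φ (T / 2 + t)) x := by
        by_contra hcon
        have := hφpos _ (hmem t ht) x
        rw [deriv_zero_of_not_differentiableAt hcon] at this
        exact lt_irrefl _ this
      exact h1.continuousAt
    obtain ⟨x0, hx0⟩ := exists_zero _ hφc (hφp _ (hmem t ht))
    let x : Fin 3 → ℝ := fun _ => x0
    refine ⟨x, ?_⟩
    have hH := hc _ (hmem t ht) x0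
    have horth := hH.2.2.2.2.2.2.2.2 hx0
    have hn := hNs (tU x) _ _ (c2 (T / 2 + t) x0) (normSq_tU x) (hc0 t ht x0) (hc1 t ht x0) horth
    have hns := ns_eq hPd hPd2 _ _ _ (hd1 t ht) (hd2 t ht) x
    have hns' : 4 / (3 * Complex.normSq (c (T / 2 + t) x0))
        ≤ normSqA (fun x => tor (c (T / 2 + t)) x) x := by
      have e : normSqA (fun x => tor (c (T / 2 + t)) x) x = nsV _ _ := hns
      rw [e]
      exact hn
    -- the size of the tip
    have hcube := hH.2.2.2.2.2.2.2.1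
    rw [hx0] at hcube
    have htI : T / 2 + t ∈ Ico 0 T := ⟨(hmem t ht).1.le, (hmem t ht).2⟩
    set Y := y 0 (T / 2 + t) 0 with hY
    have huu : uu 0 Y = (1 - exp Y) ^ 2 := by
      unfold uu
      rw [cos_zero, show (2 * Y) = Y + Y by ring, exp_add]
      ring
    have hd0 : 0 < 1 - exp Y := by
      have := Real.exp_lt_one_iff.mpr (htip _ htI)
      linarith
    have hdK := hd _ htI
    have hτ : 0 < T / 2 - t := by linarith [ht.2]
    have hL : T - (T / 2 + t) = T / 2 - t := by ring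
    rw [hL] at hdK
    have hKτ : 0 < K * (T / 2 - t) := mul_pos hKpos hτ
    have hn2 : Complex.normSq (c (T / 2 + t) x0) ≤ (K * (T / 2 - t)) ^ 2 := by
      have h1 : Complex.normSq (c (T / 2 + t) x0) ^ 3 ≤ ((K * (T / 2 - t)) ^ 2) ^ 3 := by
        rw [hcube, huu]
        calc (1 - exp Y) ^ 2 ≤ ((K * (T / 2 - t)) ^ 3) ^ 2 :=
              pow_le_pow_left₀ hd0.le hdK 2
          _ = ((K * (T / 2 - t)) ^ 2) ^ 3 := by ring
      exact le_of_pow_le_pow_left₀ (by norm_num) (by positivity) h1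
    have hnpos : 0 < Complex.normSq (c (T / 2 + t) x0) := Complex.normSq_pos.mpr (hc0 t ht x0)
    have h4 : 4 / (3 * (K * (T / 2 - t)) ^ 2) ≤ 4 / (3 * Complex.normSq (c (T / 2 + t) x0)) := by
      apply div_le_div_of_nonneg_left (by norm_num) (by positivity)
      linarith
    have h5 : 4 / (3 * (K * (T / 2 - t)) ^ 2) * (T / 2 - t)
        ≤ normSqA (fun x => tor (c (T / 2 + t)) x) x * (T / 2 - t) :=
      mul_le_mul_of_nonneg_right (h4.trans hns') hτ.le
    refine lt_of_lt_of_le ?_ h5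
    have h6 : 4 / (3 * (K * (T / 2 - t)) ^ 2) * (T / 2 - t) = 4 / (3 * K ^ 2 * (T / 2 - t)) := by
      field_simp
    rw [h6, lt_div_iff₀ (by positivity)]
    have h7 : T / 2 - t < 4 / (3 * K ^ 2 * (|C| + 1)) := by linarith
    rw [lt_div_iff₀ (by positivity)] at h7
    have h8 : C ≤ |C| := le_abs_self C
    have h9 : 0 < 3 * K ^ 2 * (T / 2 - t) := by positivity
    nlinarith

end Pool.Agent.Lib.MP_c60e08_gt.Geo
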