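import Pool.Agent.Lib.MP_c60e08_gt.GeoSpec

/-!
MP_c60e08_gt, geometry part: module GB (the gauge field is smooth and periodic), see the
docstring of `GBStmt` in `GeoSpec.lean`.
-/

namespace Pool.Agent.Lib.MP_c60e08_gt.Geo

open Real Set Pool.Agent.Lib.MP_c60e08_gt.Lm

namespace GBaux

theorem smooth_succ {T : ℝ} {F F' : ℝ → ℝ → ℝ} (hF : CS (⊤ : ℕ∞) 0 T F)
    (hd : ∀ t ∈ Ioo 0 T, ∀ x, HasDerivAt (F t) (F' t x) x) : CS (⊤ : ℕ∞) 0 T F' := by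
  have hopen : IsOpen (Ioo (0 : ℝ) T ×ˢ (univ : Set ℝ)) := isOpen_Ioo.prod isOpen_univ
  unfold CS at hF ⊢
  have h1 : ContDiffOn ℝ (⊤ : ℕ∞) (fderiv ℝ (fun z : ℝ × ℝ => F z.1 z.2)) (Ioo 0 T ×ˢ univ) :=
    hF.fderiv_of_isOpen hopen le_rfl
  have h2 : ContDiffOn ℝ (⊤ : ℕ∞) (fun z : ℝ × ℝ =>
      fderiv ℝ (fun z : ℝ × ℝ => F z.1 z.2) z (0, 1)) (Ioo 0 T ×ˢ univ) :=
    h1.clm_apply contDiffOn_const
  refine h2.congr ?_
  rintro ⟨t, x⟩ ⟨ht, _⟩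
  have hdiff : DifferentiableAt ℝ (fun z : ℝ × ℝ => F z.1 z.2) (t, x) :=
    (hF.differentiableOn (by simp)).differentiableAt (hopen.mem_nhds ⟨ht, mem_univ _⟩)
  have h3 : HasDerivAt (fun y : ℝ => ((t, y) : ℝ × ℝ)) (0, 1) x :=
    (hasDerivAt_const x t).prodMk (hasDerivAt_id x)
  have h4 : HasDerivAt (F t) (fderiv ℝ (fun z : ℝ × ℝ => F z.1 z.2) (t, x) (0, 1)) x :=
    hdiff.hasFDerivAt.comp_hasDerivAt x h3
  exact (hd t ht x).unique h4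

theorem per_succ {f f' : ℝ → ℝ} (hf : ∀ p, f (p + 2 * π) = f p) (hd : ∀ p, HasDerivAt f (f' p) p) :
    ∀ p, f' (p + 2 * π) = f' p := by
  intro p
  have h1 : HasDerivAt (fun q => f (q + 2 * π)) (f' (p + 2 * π)) p :=
    (hd (p + 2 * π)).comp_add_const p (2 * π)
  have h2 : (fun q => f (q + 2 * π)) = f := funext hf
  rw [h2] at h1
  exact h1.unique (hd p)

end GBaux

open GBaux in
theorem gb : GBStmt := by
  intro T y hT hy h0
  have hsm : ∀ m, CS (⊤ : ℕ∞) 0 T (y m) := by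
    intro m
    induction m with
    | zero => exact h0
    | succ m ih => exact smooth_succ ih fun t ht x => hy.dx m t ⟨ht.1.le, ht.2⟩ x
  have hper : ∀ m, ∀ t ∈ Ico 0 T, ∀ p, y m t (p + 2 * π) = y m t p := by
    intro m
    induction m with
    | zero => exact hy.per
    | succ m ih => exact fun t ht => per_succ (ih t ht) (hy.dx m t ht)
  refine ⟨hsm, ?_, hper, ?_⟩
  · have s0 := hsm 0
    have s1 := hsm 1
    have s2 := hsm 2
    unfold CS at s0 s1 s2 ⊢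
    have hp : ContDiffOn ℝ (⊤ : ℕ∞) (fun z : ℝ × ℝ => z.2) (Ioo 0 T ×ˢ univ) := contDiffOn_snd
    have huu : ContDiffOn ℝ (⊤ : ℕ∞) (fun z : ℝ × ℝ => uu z.2 (y 0 z.1 z.2)) (Ioo 0 T ×ˢ univ) := by
      unfold uu
      exact ((((contDiffOn_const (c := (2 : ℝ))).mul s0).exp).sub
        (((contDiffOn_const (c := (2 : ℝ))).mul s0.exp).mul hp.cos)).add contDiffOn_const
    have hfS : ContDiffOn ℝ (⊤ : ℕ∞) (fun z : ℝ × ℝ => fS (uu z.2 (y 0 z.1 z.2)))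
        (Ioo 0 T ×ˢ univ) := by
      unfold fS
      refine (contDiffOn_const (c := (3 : ℝ))).mul (huu.rpow_const_of_ne ?_)
      rintro ⟨t, x⟩ ⟨ht, _⟩
      exact (hy.pos t ⟨ht.1.le, ht.2⟩ x).ne'
    have hden : ContDiffOn ℝ (⊤ : ℕ∞) (fun z : ℝ × ℝ => 1 + (y 1 z.1 z.2) ^ 2)
        (Ioo 0 T ×ˢ univ) := contDiffOn_const.add (s1.pow 2)
    have hne : ∀ z ∈ Ioo 0 T ×ˢ (univ : Set ℝ), 1 + (y 1 z.1 z.2) ^ 2 ≠ 0 := by
      intro z _
      positivity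
    have hE : ContDiffOn ℝ (⊤ : ℕ∞) (fun z : ℝ × ℝ => exp (-(2 * y 0 z.1 z.2)))
        (Ioo 0 T ×ˢ univ) := (((contDiffOn_const (c := (2 : ℝ))).mul s0).neg).exp
    unfold gB
    exact ((hfS.mul hE).mul (contDiffOn_const.sub (s2.div hden hne))).mul (s1.div hden hne)
  · intro t ht p
    have ht' : t ∈ Ico 0 T := ⟨ht.1.le, ht.2⟩
    unfold gB uu
    rw [hper 0 t ht' p, hper 1 t ht' p, hper 2 t ht' p, Real.cos_add_two_pi]

end Pool.Agent.Lib.MP_c60e08_gt.Geo
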