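import Pool.Agent.Lib.MP_c60e08_gt.GeoSpec

/-!
# The smooth global flow of a smooth periodic field on a strip
-/

namespace Pool.Agent.Lib.MP_c60e08_gt.Geo

open Real Set Pool.Agent.Lib.MP_c60e08_gt.Lm

namespace Gauge

lemma isOpen_strip (a b : ℝ) : IsOpen (Ioo a b ×ˢ (univ : Set ℝ)) :=
  isOpen_Ioo.prod isOpen_univ

/-- composition with the flow -/
lemma comp {a b : ℝ} {n : ℕ} {F φ : ℝ → ℝ → ℝ} (hF : CS (⊤ : ℕ∞) a b F) (hφ : CS n a b φ) :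
    CS n a b (fun t x => F t (φ t x)) := by
  have h1 : ContDiffOn ℝ n (fun z : ℝ × ℝ => (z.1, φ z.1 z.2)) (Ioo a b ×ˢ univ) :=
    contDiffOn_fst.prodMk hφ
  have h2 : ContDiffOn ℝ n (fun z : ℝ × ℝ => F z.1 z.2) (Ioo a b ×ˢ univ) :=
    hF.of_le (by exact_mod_cast le_top)
  have h3 : MapsTo (fun z : ℝ × ℝ => (z.1, φ z.1 z.2)) (Ioo a b ×ˢ univ)
      (Ioo a b ×ˢ (univ : Set ℝ)) := fun z hz => ⟨hz.1, trivial⟩
  exact h2.comp h1 h3

/-- the x-derivative of a smooth function -/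
lemma derivX {a b : ℝ} {B : ℝ → ℝ → ℝ} (hB : CS (⊤ : ℕ∞) a b B) :
    ∃ Bx : ℝ → ℝ → ℝ, CS (⊤ : ℕ∞) a b Bx ∧ ∀ t ∈ Ioo a b, ∀ x, HasDerivAt (B t) (Bx t x) x := by
  refine ⟨fun t x => fderiv ℝ (fun z : ℝ × ℝ => B z.1 z.2) (t, x) (0, 1), ?_, ?_⟩
  · have h1 : ContDiffOn ℝ (⊤ : ℕ∞) (fderiv ℝ (fun z : ℝ × ℝ => B z.1 z.2))
        (Ioo a b ×ˢ univ) := hB.fderiv_of_isOpen (isOpen_strip a b) (by norm_cast)
    have h2 := h1.clm_apply (contDiffOn_const (c := ((0, 1) : ℝ × ℝ)))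
    exact h2
  · intro t ht x
    have hz : (t, x) ∈ Ioo a b ×ˢ (univ : Set ℝ) := ⟨ht, trivial⟩
    have h1 : DifferentiableAt ℝ (fun z : ℝ × ℝ => B z.1 z.2) (t, x) :=
      (hB.differentiableOn (by norm_cast)).differentiableAt ((isOpen_strip a b).mem_nhds hz)
    have h2 : HasDerivAt (fun y : ℝ => (t, y)) ((0, 1) : ℝ × ℝ) x :=
      (hasDerivAt_const x t).prodMk (hasDerivAt_id x)
    exact h1.hasFDerivAt.comp_hasDerivAt x h2

end Gauge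

theorem gauge : PartStmt → IntStmt → OdeStmt → OdeDxStmt → GaugeStmt := by
  intro hPart hInt hOde hDx a b t0 B ht0 hB hper
  obtain ⟨Bx, hBx, hBd⟩ := Gauge.derivX hB
  obtain ⟨φ, hφ0, hφt, hφc, hφp⟩ := hOde a b t0 B ht0 (hB.of_le (by norm_cast)) hper
  have hφx := hDx a b t0 B Bx φ ht0 hBd hBx.continuousOn hφ0 hφt hφc
  have hn : ∀ n : ℕ, CS n a b φ := by
    intro n
    induction n with
    | zero => exact contDiffOn_zero.2 hφc
    | succ n ih =>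
      refine hPart a b n φ (fun t x => B t (φ t x))
        (fun t x => exp (∫ s in t0..t, Bx s (φ s x))) hφt hφx (Gauge.comp hB ih) ?_
      exact Real.contDiff_exp.comp_contDiffOn
        (hInt a b t0 ht0 n (fun s x => Bx s (φ s x)) (Gauge.comp hBx ih))
  refine ⟨φ, contDiffOn_infty.2 hn, hφt, hφp, fun t ht x => ?_⟩
  rw [(hφx t ht x).deriv]
  exact exp_pos _

end Pool.Agent.Lib.MP_c60e08_gt.Geo
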