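import Pool.Agent.Lib.MP_c60e08_gt.GeoSpec

/-!
The inverse of the induced metric of the torus.
-/

namespace Pool.Agent.Lib.MP_c60e08_gt.Geo

open Real Set Pool.Agent.Lib.MP_c60e08_gt.Lm

open scoped ComplexConjugate

namespace Gram

lemma one_re (z : ℂ) (h : Complex.normSq z = 1) : z.re ^ 2 + z.im ^ 2 = 1 := by
  rw [Complex.normSq_apply] at h
  nlinarith

end Gram

open Gram in
/-- The inverse of the induced metric. -/
theorem gram_inv : GramStmt := by
  intro u c c1 hu hc hc1
  have h0 := one_re _ (hu 0)
  have h1 := one_re _ (hu 1)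
  have h2 := one_re _ (hu 2)
  have hn : 0 < Complex.normSq c := Complex.normSq_pos.mpr hc
  have hn1 : 0 < Complex.normSq c1 := Complex.normSq_pos.mpr hc1
  have key : gramV (tP u c c1) = !![3 * Complex.normSq c1, 0, 0;
      0, 2 * Complex.normSq c, Complex.normSq c;
      0, Complex.normSq c, 2 * Complex.normSq c] := by
    ext i j
    fin_cases i <;> fin_cases j <;>
      simp [gramV, tP, ip, Fin.sum_univ_three, Complex.normSq_apply]
    all_goals first
      | linear_combination (c1.re ^ 2 + c1.im ^ 2) * (h0 + h1 + h2)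
      | linear_combination (c.re ^ 2 + c.im ^ 2) * (h0 + h2)
      | linear_combination (c.re ^ 2 + c.im ^ 2) * (h1 + h2)
      | linear_combination (c.re ^ 2 + c.im ^ 2) * h2
      | linear_combination (c1.im * c.re - c1.re * c.im) * (h0 - h2)
      | linear_combination (c1.im * c.re - c1.re * c.im) * (h1 - h2)
  rw [key]
  apply Matrix.inv_eq_right_inv
  rw [gInv]
  ext i j
  fin_cases i <;> fin_cases j <;>
    simp [Matrix.mul_apply, Fin.sum_univ_three] <;> field_simp <;> norm_num

end Pool.Agent.Lib.MP_c60e08_gt.Geo
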