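import Pool.Agent.Lib.MP_c60e08_gt.GeoSpec

/-!
# INT: integrals in time of jointly smooth functions are jointly smooth
-/

namespace Pool.Agent.Lib.MP_c60e08_gt.Geo

namespace IntG

open Real Set MeasureTheory Filter Topology

/-- continuity of the parametric primitive -/
theorem cont (a b t0 : ℝ) (ht0 : t0 ∈ Ioo a b) (G : ℝ → ℝ → ℝ)
    (hG : ContinuousOn (fun z : ℝ × ℝ => G z.1 z.2) (Ioo a b ×ˢ univ)) :
    ContinuousOn (fun z : ℝ × ℝ => ∫ s in t0..z.1, G s z.2) (Ioo a b ×ˢ univ) := by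
  rintro ⟨t1, x1⟩ ⟨ht1, -⟩
  simp only [mem_Ioo] at ht0 ht1
  obtain ⟨α, hα1, hα2⟩ := exists_between (lt_min ht0.1 ht1.1)
  obtain ⟨β, hβ1, hβ2⟩ := exists_between (max_lt ht0.2 ht1.2)
  rw [lt_min_iff] at hα2
  rw [max_lt_iff] at hβ1
  have hαβ : α ≤ β := (hα2.1.trans hβ1.1).le
  apply ContinuousAt.continuousWithinAt
  have hc : Continuous (fun z : ℝ × ℝ => G (projIcc α β hαβ z.1) z.2) := by
    have h1 : Continuous (fun z : ℝ × ℝ => (((projIcc α β hαβ z.1 : ℝ), z.2) : ℝ × ℝ)) := by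
      fun_prop
    refine hG.comp_continuous h1 ?_
    intro z
    refine ⟨⟨?_, ?_⟩, mem_univ _⟩
    · exact hα1.trans_le (projIcc α β hαβ z.1).2.1
    · exact (projIcc α β hαβ z.1).2.2.trans_lt hβ2
  have hI : Continuous (fun z : ℝ × ℝ => ∫ s in t0..z.1, G (projIcc α β hαβ s) z.2) := by
    apply intervalIntegral.continuous_parametric_intervalIntegral_of_continuous
      (f := fun (z : ℝ × ℝ) (s : ℝ) => G (projIcc α β hαβ s) z.2)
    · have : Continuous (fun p : (ℝ × ℝ) × ℝ => ((p.2, p.1.2) : ℝ × ℝ)) := by fun_prop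
      exact hc.comp this
    · exact continuous_fst
  refine hI.continuousAt.congr ?_
  have hn : Ioo α β ×ˢ (univ : Set ℝ) ∈ 𝓝 ((t1, x1) : ℝ × ℝ) :=
    (isOpen_Ioo.prod isOpen_univ).mem_nhds ⟨⟨hα2.2, hβ1.2⟩, mem_univ _⟩
  filter_upwards [hn] with z hz
  apply intervalIntegral.integral_congr
  intro s hs
  have hs' : s ∈ Icc α β := by
    have h1 : uIcc t0 z.1 ⊆ Icc α β := by
      apply uIcc_subset_Icc
      · exact ⟨hα2.1.le, hβ1.1.le⟩
      · exact ⟨hz.1.1.le, hz.1.2.le⟩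
    exact h1 hs
  simp only [projIcc_of_mem hαβ hs']

theorem sub_Ioo {a b t0 t : ℝ} (ht0 : t0 ∈ Ioo a b) (ht : t ∈ Ioo a b) :
    uIcc t0 t ⊆ Ioo a b := by
  intro s hs
  rw [mem_uIcc] at hs
  rcases hs with hs | hs
  · exact ⟨ht0.1.trans_le hs.1, hs.2.trans_lt ht.2⟩
  · exact ⟨ht.1.trans_le hs.1, hs.2.trans_lt ht0.2⟩

/-- time derivative of the primitive -/
theorem dt (a b t0 : ℝ) (ht0 : t0 ∈ Ioo a b) (G : ℝ → ℝ → ℝ)
    (hG : ContinuousOn (fun z : ℝ × ℝ => G z.1 z.2) (Ioo a b ×ˢ univ))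
    (t : ℝ) (ht : t ∈ Ioo a b) (x : ℝ) :
    HasDerivAt (fun s => ∫ r in t0..s, G r x) (G t x) t := by
  have hc : ContinuousOn (fun s => G s x) (Ioo a b) := by
    have h1 : ContinuousOn (fun s : ℝ => ((s, x) : ℝ × ℝ)) (Ioo a b) := by fun_prop
    exact hG.comp h1 (fun s hs => ⟨hs, mem_univ _⟩)
  apply intervalIntegral.integral_hasDerivAt_right
  · exact (hc.mono (sub_Ioo ht0 ht)).intervalIntegrable
  · exact hc.stronglyMeasurableAtFilter isOpen_Ioo t ht
  · exact hc.continuousAt (isOpen_Ioo.mem_nhds ht)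

/-- space derivative of the primitive -/
theorem dx (a b t0 : ℝ) (ht0 : t0 ∈ Ioo a b) (G Gx : ℝ → ℝ → ℝ)
    (hG : ContinuousOn (fun z : ℝ × ℝ => G z.1 z.2) (Ioo a b ×ˢ univ))
    (hGx : ContinuousOn (fun z : ℝ × ℝ => Gx z.1 z.2) (Ioo a b ×ˢ univ))
    (hd : ∀ t ∈ Ioo a b, ∀ x, HasDerivAt (G t) (Gx t x) x)
    (t : ℝ) (ht : t ∈ Ioo a b) (x : ℝ) :
    HasDerivAt (fun y => ∫ r in t0..t, G r y) (∫ r in t0..t, Gx r x) x := by
  have hsub := sub_Ioo ht0 ht
  have hslice : ∀ y, ContinuousOn (fun s => G s y) (uIcc t0 t) := by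
    intro y
    have h1 : ContinuousOn (fun s : ℝ => ((s, y) : ℝ × ℝ)) (uIcc t0 t) := by fun_prop
    exact hG.comp h1 (fun s hs => ⟨hsub hs, mem_univ _⟩)
  have hslicex : ∀ y, ContinuousOn (fun s => Gx s y) (uIcc t0 t) := by
    intro y
    have h1 : ContinuousOn (fun s : ℝ => ((s, y) : ℝ × ℝ)) (uIcc t0 t) := by fun_prop
    exact hGx.comp h1 (fun s hs => ⟨hsub hs, mem_univ _⟩)
  have hcomp : IsCompact (uIcc t0 t ×ˢ Icc (x - 1) (x + 1)) :=
    isCompact_uIcc.prod isCompact_Icc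
  obtain ⟨M, hM⟩ := hcomp.exists_bound_of_continuousOn
    (hGx.mono (prod_mono hsub (subset_univ _)))
  have hu : Ioo (x - 1) (x + 1) ∈ 𝓝 x := Ioo_mem_nhds (by linarith) (by linarith)
  refine (intervalIntegral.hasDerivAt_integral_of_dominated_loc_of_deriv_le (μ := volume)
    (F := fun y s => G s y) (F' := fun y s => Gx s y) (bound := fun _ => M) (s := Ioo (x - 1) (x + 1))
    hu ?_ ?_ ?_ ?_ ?_ ?_).2
  · filter_upwards with y
    exact ((hslice y).mono uIoc_subset_uIcc).aestronglyMeasurable measurableSet_uIoc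
  · exact (hslice x).intervalIntegrable
  · exact ((hslicex x).mono uIoc_subset_uIcc).aestronglyMeasurable measurableSet_uIoc
  · filter_upwards with s hs y hy
    have := hM (s, y) ⟨uIoc_subset_uIcc hs, ⟨hy.1.le, hy.2.le⟩⟩
    exact this
  · exact intervalIntegrable_const
  · filter_upwards with s hs y hy
    exact hd s (hsub (uIoc_subset_uIcc hs)) y

end IntG

open Real Set MeasureTheory Filter Topology in
theorem int_smooth : PartStmt → IntStmt := by
  intro hpart a b t0 ht0 n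
  induction n with
  | zero =>
    intro G hG
    unfold CS at hG ⊢
    have h0 : ((0 : ℕ) : WithTop ℕ∞) = 0 := rfl
    rw [h0] at hG ⊢
    rw [contDiffOn_zero] at hG ⊢
    exact IntG.cont a b t0 ht0 G hG
  | succ n ih =>
    intro G hG
    have hopen : IsOpen (Ioo a b ×ˢ (univ : Set ℝ)) := isOpen_Ioo.prod isOpen_univ
    have hG' := hG
    unfold CS at hG'
    set Gx : ℝ → ℝ → ℝ := fun t x =>
      fderiv ℝ (fun z : ℝ × ℝ => G z.1 z.2) (t, x) (0, 1) with hGx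
    have hcast : (((n + 1 : ℕ) : ℕ) : WithTop ℕ∞) = (n : WithTop ℕ∞) + 1 := by push_cast; rfl
    rw [hcast] at hG'
    rw [contDiffOn_succ_iff_fderiv_of_isOpen hopen] at hG'
    have hGxs : CS n a b Gx := by
      unfold CS
      have := hG'.2.2.clm_apply (contDiffOn_const (c := ((0 : ℝ), (1 : ℝ))))
      exact this
    have hd : ∀ t ∈ Ioo a b, ∀ x, HasDerivAt (G t) (Gx t x) x := by
      intro t ht x
      have h1 : HasFDerivAt (fun z : ℝ × ℝ => G z.1 z.2)
          (fderiv ℝ (fun z : ℝ × ℝ => G z.1 z.2) (t, x)) (t, x) :=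
        (hG'.1.differentiableAt (hopen.mem_nhds ⟨ht, mem_univ _⟩)).hasFDerivAt
      have h2 : HasDerivAt (fun y : ℝ => ((t, y) : ℝ × ℝ)) (0, 1) x :=
        (hasDerivAt_const x t).prodMk (hasDerivAt_id x)
      exact h1.comp_hasDerivAt x h2
    have hGn : CS n a b G := by
      unfold CS at hG ⊢
      exact hG.of_le (by exact_mod_cast Nat.le_succ n)
    have hc : ContinuousOn (fun z : ℝ × ℝ => G z.1 z.2) (Ioo a b ×ˢ univ) := hGn.continuousOn
    have hcx : ContinuousOn (fun z : ℝ × ℝ => Gx z.1 z.2) (Ioo a b ×ˢ univ) := hGxs.continuousOn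
    exact hpart a b n (fun t x => ∫ s in t0..t, G s x) G (fun t x => ∫ s in t0..t, Gx s x)
      (fun t ht x => IntG.dt a b t0 ht0 G hc t ht x)
      (fun t ht x => IntG.dx a b t0 ht0 G Gx hc hcx hd t ht x)
      hGn (ih Gx hGxs)

end Pool.Agent.Lib.MP_c60e08_gt.Geo
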