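import Pool.Agent.Lib.MP_c60e08_gt.GeoSpec

/-!
# The mean curvature vector of the torus over a curve
-/

set_option autoImplicit false

namespace Pool.Agent.Lib.MP_c60e08_gt.Geo

open Real Set Pool.Agent.Lib.MP_c60e08_gt.Lm

open scoped ComplexConjugate

namespace Mc

/-- coefficients of the first derivatives -/
noncomputable def cP (c c1 : ℂ) : Fin 3 → Fin 3 → ℂ :=
  ![![c1, c1, c1], ![Complex.I * c, 0, -(Complex.I * c)], ![0, Complex.I * c, -(Complex.I * c)]]

/-- coefficients of the second derivatives -/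
noncomputable def cQ (c c1 c2 : ℂ) : Fin 3 → Fin 3 → Fin 3 → ℂ :=
  ![![![c2, c2, c2],
      ![Complex.I * c1, 0, -(Complex.I * c1)],
      ![0, Complex.I * c1, -(Complex.I * c1)]],
    ![![Complex.I * c1, 0, -(Complex.I * c1)],
      ![-c, 0, -c],
      ![0, 0, -c]],
    ![![0, Complex.I * c1, -(Complex.I * c1)],
      ![0, 0, -c],
      ![0, -c, -c]]]

theorem tP_eq (u : Fin 3 → ℂ) (c c1 : ℂ) (i : Fin 3) :
    tP u c c1 i = fun l => cP c c1 i l * u l := by
  funext l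
  fin_cases i <;> fin_cases l <;> simp [tP, cP]

theorem tQ_eq (u : Fin 3 → ℂ) (c c1 c2 : ℂ) (i j : Fin 3) :
    tQ u c c1 c2 i j = fun l => cQ c c1 c2 i j l * u l := by
  funext l
  fin_cases i <;> fin_cases j <;> fin_cases l <;> simp [tQ, cQ]

theorem ip_mul (u : Fin 3 → ℂ) (hu : ∀ j, Complex.normSq (u j) = 1) (a b : Fin 3 → ℂ) :
    ip (fun l => a l * u l) (fun l => b l * u l) = ∑ l, (a l * conj (b l)).re := by
  unfold ip
  refine Finset.sum_congr rfl fun l _ => ?_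
  have h1 : u l * conj (u l) = 1 := by
    rw [Complex.mul_conj, hu l]
    norm_num
  have h2 : a l * u l * conj (b l * u l) = a l * conj (b l) := by
    rw [map_mul]
    calc a l * u l * (conj (b l) * conj (u l)) = a l * conj (b l) * (u l * conj (u l)) := by ring
      _ = _ := by rw [h1, mul_one]
  rw [h2]

theorem ip_QP (u : Fin 3 → ℂ) (hu : ∀ j, Complex.normSq (u j) = 1) (c c1 c2 : ℂ)
    (i j k : Fin 3) : ip (tQ u c c1 c2 i j) (tP u c c1 k) =
      ∑ l, (cQ c c1 c2 i j l * conj (cP c c1 k l)).re := by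
  rw [tQ_eq, tP_eq, ip_mul u hu]

/-- the normal part when the second derivative is orthogonal to the second and third tangent
vectors -/
theorem sec_eq (hG : GramStmt) (u : Fin 3 → ℂ) (hu : ∀ j, Complex.normSq (u j) = 1) (c c1 c2 : ℂ)
    (hc : c ≠ 0) (hc1 : c1 ≠ 0) (i j : Fin 3) (r : ℝ)
    (h0 : ∑ l, (cQ c c1 c2 i j l * conj (cP c c1 0 l)).re = r)
    (h1 : ∑ l, (cQ c c1 c2 i j l * conj (cP c c1 1 l)).re = 0)
    (h2 : ∑ l, (cQ c c1 c2 i j l * conj (cP c c1 2 l)).re = 0) (l : Fin 3) :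
    secV (tP u c c1) (tQ u c c1 c2) i j l =
      (cQ c c1 c2 i j l - ((r / (3 * Complex.normSq c1) : ℝ) : ℂ) * c1) * u l := by
  unfold secV
  rw [hG u c c1 hu hc hc1]
  have e0 := ip_QP u hu c c1 c2 i j 0
  have e1 := ip_QP u hu c c1 c2 i j 1
  have e2 := ip_QP u hu c c1 c2 i j 2
  rw [h0] at e0
  rw [h1] at e1
  rw [h2] at e2
  simp only [Pi.sub_apply, Pi.add_apply, Fin.sum_univ_three, e0, e1, e2]
  have g00 : gInv c c1 0 0 = 1 / (3 * Complex.normSq c1) := rfl
  have g01 : gInv c c1 0 1 = 0 := rfl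
  have g02 : gInv c c1 0 2 = 0 := rfl
  rw [g00, g01, g02, tQ_eq, tP_eq u c c1 0]
  have hp : cP c c1 0 l = c1 := by fin_cases l <;> rfl
  simp only [mul_zero, zero_mul, zero_smul, add_zero, Pi.smul_apply, Complex.real_smul, hp]
  push_cast
  ring

theorem key (c1 w : ℂ) (hc1 : c1 ≠ 0) :
    w - (((w * conj c1).re / Complex.normSq c1 : ℝ) : ℂ) * c1 =
      Complex.I * c1 * (((w * conj c1).im / Complex.normSq c1 : ℝ) : ℂ) := by
  have hn : (Complex.normSq c1 : ℂ) ≠ 0 := by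
    rw [Ne, Complex.ofReal_eq_zero]
    exact (Complex.normSq_pos.2 hc1).ne'
  have h1 : (w * conj c1) * c1 = w * Complex.normSq c1 := by
    rw [mul_assoc, mul_comm (conj c1) c1, Complex.mul_conj]
  have h2 : (((w * conj c1).re : ℝ) : ℂ) + (((w * conj c1).im : ℝ) : ℂ) * Complex.I =
      w * conj c1 := Complex.re_add_im _
  push_cast
  rw [eq_comm, ← sub_eq_zero]
  have h3 : Complex.I * c1 * ((((w * conj c1).im : ℝ) : ℂ) / (Complex.normSq c1 : ℂ)) -
      (w - (((w * conj c1).re : ℝ) : ℂ) / (Complex.normSq c1 : ℂ) * c1) =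
      (((((w * conj c1).re : ℝ) : ℂ) + (((w * conj c1).im : ℝ) : ℂ) * Complex.I) * c1 -
        w * Complex.normSq c1) / Complex.normSq c1 := by
    field_simp
    ring
  rw [h3, h2, h1, sub_self, zero_div]

end Mc

open Mc in
theorem mc : GramStmt → McStmt := by
  intro hG u c c1 c2 hu hc hc1
  have hn : Complex.normSq c ≠ 0 := (Complex.normSq_pos.2 hc).ne'
  have hn1 : Complex.normSq c1 ≠ 0 := (Complex.normSq_pos.2 hc1).ne'
  -- the five normal parts
  have s00 := sec_eq hG u hu c c1 c2 hc hc1 0 0 (3 * (c2 * conj c1).re)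
    (by simp [Fin.sum_univ_three, cQ, cP]; ring)
    (by simp [Fin.sum_univ_three, cQ, cP]; ring)
    (by simp [Fin.sum_univ_three, cQ, cP]; ring)
  have s11 := sec_eq hG u hu c c1 c2 hc hc1 1 1 (-(2 * (c * conj c1).re))
    (by simp [Fin.sum_univ_three, cQ, cP]; ring)
    (by simp [Fin.sum_univ_three, cQ, cP]; ring)
    (by simp [Fin.sum_univ_three, cQ, cP]; ring)
  have s12 := sec_eq hG u hu c c1 c2 hc hc1 1 2 (-(c * conj c1).re)
    (by simp [Fin.sum_univ_three, cQ, cP]; ring)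
    (by simp [Fin.sum_univ_three, cQ, cP]; ring)
    (by simp [Fin.sum_univ_three, cQ, cP]; ring)
  have s21 := sec_eq hG u hu c c1 c2 hc hc1 2 1 (-(c * conj c1).re)
    (by simp [Fin.sum_univ_three, cQ, cP]; ring)
    (by simp [Fin.sum_univ_three, cQ, cP]; ring)
    (by simp [Fin.sum_univ_three, cQ, cP]; ring)
  have s22 := sec_eq hG u hu c c1 c2 hc hc1 2 2 (-(2 * (c * conj c1).re))
    (by simp [Fin.sum_univ_three, cQ, cP]; ring)
    (by simp [Fin.sum_univ_three, cQ, cP]; ring)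
    (by simp [Fin.sum_univ_three, cQ, cP]; ring)
  have k1 := key c1 c2 hc1
  have k2 := key c1 c hc1
  funext l
  unfold mcV
  rw [hG u c c1 hu hc hc1]
  have g00 : gInv c c1 0 0 = 1 / (3 * Complex.normSq c1) := rfl
  have g01 : gInv c c1 0 1 = 0 := rfl
  have g02 : gInv c c1 0 2 = 0 := rfl
  have g10 : gInv c c1 1 0 = 0 := rfl
  have g11 : gInv c c1 1 1 = 2 / (3 * Complex.normSq c) := rfl
  have g12 : gInv c c1 1 2 = -1 / (3 * Complex.normSq c) := rfl
  have g20 : gInv c c1 2 0 = 0 := rfl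
  have g21 : gInv c c1 2 1 = -1 / (3 * Complex.normSq c) := rfl
  have g22 : gInv c c1 2 2 = 2 / (3 * Complex.normSq c) := rfl
  simp only [Pi.add_apply, Pi.smul_apply, Fin.sum_univ_three, g00, g01, g02, g10, g11, g12,
    g20, g21, g22, zero_smul, add_zero, zero_add, s00 l, s11 l, s12 l, s21 l, s22 l,
    Complex.real_smul]
  have hq : (2 : ℂ) * cQ c c1 c2 1 1 l - cQ c c1 c2 1 2 l - cQ c c1 c2 2 1 l +
      2 * cQ c c1 c2 2 2 l = -(2 * c) := by
    fin_cases l <;> simp [cQ] <;> ring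
  have hq0 : cQ c c1 c2 0 0 l = c2 := by fin_cases l <;> rfl
  have hnc : (Complex.normSq c : ℂ) ≠ 0 := by
    rw [Ne, Complex.ofReal_eq_zero]
    exact hn
  have hn1c : (Complex.normSq c1 : ℂ) ≠ 0 := by
    rw [Ne, Complex.ofReal_eq_zero]
    exact hn1
  unfold spd
  rw [hq0]
  push_cast at k1 k2 ⊢
  have e1 : Complex.I * c1 * (((((c2 * conj c1).im : ℝ) : ℂ) / (3 * (Complex.normSq c1 : ℂ)) -
      2 / 3 * (((c * conj c1).im : ℝ) : ℂ) / (Complex.normSq c : ℂ)) / (Complex.normSq c1 : ℂ)) =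
      1 / (3 * (Complex.normSq c1 : ℂ)) *
        (Complex.I * c1 * ((((c2 * conj c1).im : ℝ) : ℂ) / (Complex.normSq c1 : ℂ))) -
      2 / (3 * (Complex.normSq c : ℂ)) *
        (Complex.I * c1 * ((((c * conj c1).im : ℝ) : ℂ) / (Complex.normSq c1 : ℂ))) := by
    field_simp
  rw [e1, ← k1, ← k2]
  have e2 : ∀ a b d e R : ℂ, 2 * a - b - d + 2 * e = -(2 * c) →
      2 / (3 * (Complex.normSq c : ℂ)) *
        ((a - -(2 * R) / (3 * (Complex.normSq c1 : ℂ)) * c1) * u l) +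
      -1 / (3 * (Complex.normSq c : ℂ)) *
        ((b - -R / (3 * (Complex.normSq c1 : ℂ)) * c1) * u l) +
      (-1 / (3 * (Complex.normSq c : ℂ)) *
        ((d - -R / (3 * (Complex.normSq c1 : ℂ)) * c1) * u l) +
      2 / (3 * (Complex.normSq c : ℂ)) *
        ((e - -(2 * R) / (3 * (Complex.normSq c1 : ℂ)) * c1) * u l)) =
      -(2 / (3 * (Complex.normSq c : ℂ)) * (c - R / (Complex.normSq c1 : ℂ) * c1)) * u l := by
    intro a b d e R h
    have hb : b = 2 * a - d + 2 * e + 2 * c := by linear_combination -h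
    rw [hb]
    field_simp
    ring
  have e3 := e2 _ _ _ _ (((c * conj c1).re : ℝ) : ℂ) hq
  rw [add_assoc, e3]
  field_simp
  ring

end Pool.Agent.Lib.MP_c60e08_gt.Geo
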