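import Pool.Agent.Lib.MP_c60e08_gt.GeoSpec

/-!
# NS: lower bound of the squared second fundamental form
-/

namespace Pool.Agent.Lib.MP_c60e08_gt.Geo

namespace Ns

open Real Set Pool.Agent.Lib.MP_c60e08_gt.Lm

open scoped ComplexConjugate

theorem ip_comm (a b : Fin 3 → ℂ) : ip a b = ip b a := by
  unfold ip
  refine Finset.sum_congr rfl fun j _ => ?_
  simp only [Complex.mul_re, Complex.conj_re, Complex.conj_im]
  ring

theorem ip_self_nonneg (a : Fin 3 → ℂ) : 0 ≤ ip a a := by
  unfold ip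
  refine Finset.sum_nonneg fun j _ => ?_
  simp only [Complex.mul_re, Complex.conj_re, Complex.conj_im]
  nlinarith [sq_nonneg (a j).re, sq_nonneg (a j).im]

theorem ip_par (a b : Fin 3 → ℂ) : 0 ≤ ip a a - ip a b + ip b b := by
  have h : ip a a - ip a b + ip b b
      = ∑ j, (((a j).re - (b j).re / 2) ^ 2 + ((a j).im - (b j).im / 2) ^ 2
        + 3 / 4 * ((b j).re ^ 2 + (b j).im ^ 2)) := by
    unfold ip
    rw [← Finset.sum_sub_distrib, ← Finset.sum_add_distrib]
    refine Finset.sum_congr rfl fun j _ => ?_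
    simp only [Complex.mul_re, Complex.conj_re, Complex.conj_im]
    ring
  rw [h]
  refine Finset.sum_nonneg fun j _ => ?_
  positivity

/-- the sum with a block diagonal metric -/
theorem block (A : Fin 3 → Fin 3 → Fin 3 → ℂ) (al be : ℝ) (hbe : 0 ≤ be) (hal : 0 ≤ al)
    (hs : ∀ i j, A i j = A j i) (g : Matrix (Fin 3) (Fin 3) ℝ)
    (h00 : g 0 0 = al) (h01 : g 0 1 = 0) (h02 : g 0 2 = 0) (h10 : g 1 0 = 0)
    (h11 : g 1 1 = 2 * be) (h12 : g 1 2 = -be) (h20 : g 2 0 = 0) (h21 : g 2 1 = -be)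
    (h22 : g 2 2 = 2 * be) :
    be ^ 2 * (4 * ip (A 1 1) (A 1 1) + 4 * ip (A 2 2) (A 2 2) + 10 * ip (A 1 2) (A 1 2)
      - 8 * ip (A 1 1) (A 1 2) - 8 * ip (A 2 2) (A 1 2) + 2 * ip (A 1 1) (A 2 2)) ≤
    ∑ i, ∑ j, ∑ k, ∑ l, g i k * g j l * ip (A i j) (A k l) := by
  have e : ∑ i, ∑ j, ∑ k, ∑ l, g i k * g j l * ip (A i j) (A k l)
      = al ^ 2 * ip (A 0 0) (A 0 0)
        + 4 * (al * be) * (ip (A 0 1) (A 0 1) - ip (A 0 1) (A 0 2) + ip (A 0 2) (A 0 2))
        + be ^ 2 * (4 * ip (A 1 1) (A 1 1) + 4 * ip (A 2 2) (A 2 2) + 10 * ip (A 1 2) (A 1 2)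
      - 8 * ip (A 1 1) (A 1 2) - 8 * ip (A 2 2) (A 1 2) + 2 * ip (A 1 1) (A 2 2)) := by
    simp only [Fin.sum_univ_three, h00, h01, h02, h10, h11, h12, h20, h21, h22]
    rw [hs 1 0, hs 2 0, hs 2 1, ip_comm (A 0 2) (A 0 1), ip_comm (A 1 2) (A 1 1),
      ip_comm (A 2 2) (A 1 1), ip_comm (A 2 2) (A 1 2)]
    ring
  rw [e]
  have h1 := ip_self_nonneg (A 0 0)
  have h2 := ip_par (A 0 1) (A 0 2)
  have h3 : 0 ≤ al ^ 2 * ip (A 0 0) (A 0 0) := by positivity
  have h4 : 0 ≤ 4 * (al * be) *
      (ip (A 0 1) (A 0 1) - ip (A 0 1) (A 0 2) + ip (A 0 2) (A 0 2)) := by positivity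
  linarith

end Ns

open Real Set Pool.Agent.Lib.MP_c60e08_gt.Lm in
open scoped ComplexConjugate in
theorem ns : GramStmt → NsStmt := by
  intro hG u c c1 c2 hu hc hc1 horth
  have hg := hG u c c1 hu hc hc1
  have hn : 0 < Complex.normSq c := Complex.normSq_pos.2 hc
  have hn1 : 0 < Complex.normSq c1 := Complex.normSq_pos.2 hc1
  have hu0 := hu 0
  have hu1 := hu 1
  have hu2 := hu 2
  -- the second derivatives in the torus directions are normal
  have horth' : c.re * c1.re + c.im * c1.im = 0 := by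
    have := horth
    simp only [Complex.mul_re, Complex.conj_re, Complex.conj_im] at this
    linarith
  rw [Complex.normSq_apply] at hu0 hu1 hu2
  have hsec : ∀ i j, i ≠ 0 → j ≠ 0 → secV (tP u c c1) (tQ u c c1 c2) i j = tQ u c c1 c2 i j := by
    intro i j hi hj
    have hz : ∀ k, ip (tQ u c c1 c2 i j) (tP u c c1 k) = 0 := by
      intro k
      fin_cases i <;> first | exact absurd rfl hi | skip
      all_goals fin_cases j <;> first | exact absurd rfl hj | skip
      all_goals fin_cases k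
      all_goals
        simp [ip, tQ, tP, Fin.sum_univ_three]
      all_goals first
        | ring1
        | linear_combination (-((u 0).re * (u 0).re + (u 0).im * (u 0).im
            + (u 2).re * (u 2).re + (u 2).im * (u 2).im)) * horth'
        | linear_combination (-((u 1).re * (u 1).re + (u 1).im * (u 1).im
            + (u 2).re * (u 2).re + (u 2).im * (u 2).im)) * horth'
        | linear_combination (-((u 2).re * (u 2).re + (u 2).im * (u 2).im)) * horth'
    unfold secV
    rw [sub_eq_self]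
    refine Finset.sum_eq_zero fun k _ => Finset.sum_eq_zero fun l _ => ?_
    rw [hz, mul_zero, zero_smul]
  have hsymm : ∀ i j, secV (tP u c c1) (tQ u c c1 c2) i j
      = secV (tP u c c1) (tQ u c c1 c2) j i := by
    have hQ : ∀ i j, tQ u c c1 c2 i j = tQ u c c1 c2 j i := by
      intro i j
      fin_cases i <;> fin_cases j <;> rfl
    intro i j
    unfold secV
    rw [hQ i j]
  have hb := Ns.block (fun i j => secV (tP u c c1) (tQ u c c1 c2) i j)
    (1 / (3 * Complex.normSq c1)) (1 / (3 * Complex.normSq c)) (by positivity) (by positivity)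
    hsymm (gInv c c1) (by simp [gInv]) (by simp [gInv]) (by simp [gInv]) (by simp [gInv])
    (by simp [gInv]; ring) (by simp [gInv]; ring) (by simp [gInv]) (by simp [gInv]; ring)
    (by simp [gInv]; ring)
  unfold nsV
  rw [hg]
  refine le_trans (le_of_eq ?_) hb
  have h1 : (1 : Fin 3) ≠ 0 := by decide
  have h2 : (2 : Fin 3) ≠ 0 := by decide
  simp only [hsec 1 1 h1 h1, hsec 2 2 h2 h2, hsec 1 2 h1 h2]
  have i11 : ip (tQ u c c1 c2 1 1) (tQ u c c1 c2 1 1) = 2 * Complex.normSq c := by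
    simp only [ip, tQ, Fin.sum_univ_three, Complex.normSq_apply]
    simp
    linear_combination (c.re * c.re + c.im * c.im) * (hu0 + hu2)
  have i22 : ip (tQ u c c1 c2 2 2) (tQ u c c1 c2 2 2) = 2 * Complex.normSq c := by
    simp only [ip, tQ, Fin.sum_univ_three, Complex.normSq_apply]
    simp
    linear_combination (c.re * c.re + c.im * c.im) * (hu1 + hu2)
  have i12 : ip (tQ u c c1 c2 1 2) (tQ u c c1 c2 1 2) = Complex.normSq c := by
    simp only [ip, tQ, Fin.sum_univ_three, Complex.normSq_apply]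
    simp
    linear_combination (c.re * c.re + c.im * c.im) * hu2
  have i1112 : ip (tQ u c c1 c2 1 1) (tQ u c c1 c2 1 2) = Complex.normSq c := by
    simp only [ip, tQ, Fin.sum_univ_three, Complex.normSq_apply]
    simp
    linear_combination (c.re * c.re + c.im * c.im) * hu2
  have i2212 : ip (tQ u c c1 c2 2 2) (tQ u c c1 c2 1 2) = Complex.normSq c := by
    simp only [ip, tQ, Fin.sum_univ_three, Complex.normSq_apply]
    simp
    linear_combination (c.re * c.re + c.im * c.im) * hu2
  have i1122 : ip (tQ u c c1 c2 1 1) (tQ u c c1 c2 2 2) = Complex.normSq c := by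
    simp only [ip, tQ, Fin.sum_univ_three, Complex.normSq_apply]
    simp
    linear_combination (c.re * c.re + c.im * c.im) * hu2
  rw [i11, i22, i12, i1112, i2212, i1122]
  field_simp
  ring

end Pool.Agent.Lib.MP_c60e08_gt.Geo
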