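import Pool.Agent.Lib.MP_c60e08_gt.GeoSpec

/-!
MP_c60e08_gt, geometry part: module Ode (global flow of a periodic field on a strip), see the
docstring of `OdeStmt` in `GeoSpec.lean`.
-/

namespace Pool.Agent.Lib.MP_c60e08_gt.Geo

open Real Set Pool.Agent.Lib.MP_c60e08_gt.Lm

namespace Ode

open Metric Filter Topology NNReal

/-- bounds on a compact time interval -/
theorem bounds {a b : ℝ} {B : ℝ → ℝ → ℝ} (hB : CS 1 a b B)
    (hper : ∀ t ∈ Ioo a b, ∀ x, B t (x + 2 * π) = B t x) {α β : ℝ} (hα : a < α) (hβ : β < b) :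
    ∃ M L : ℝ≥0, ∀ t ∈ Icc α β, (∀ x, ‖B t x‖ ≤ M) ∧ LipschitzWith L (B t) := by
  have hopen : IsOpen (Ioo a b ×ˢ (univ : Set ℝ)) := isOpen_Ioo.prod isOpen_univ
  have hsub : Icc α β ×ˢ Icc (0 : ℝ) (2 * π) ⊆ Ioo a b ×ˢ (univ : Set ℝ) := by
    rintro ⟨t, x⟩ ⟨ht, _⟩
    exact ⟨⟨hα.trans_le ht.1, ht.2.trans_lt hβ⟩, mem_univ _⟩
  have hcomp : IsCompact (Icc α β ×ˢ Icc (0 : ℝ) (2 * π)) := isCompact_Icc.prod isCompact_Icc
  unfold CS at hB
  have hc : ContinuousOn (fun z : ℝ × ℝ => B z.1 z.2) (Ioo a b ×ˢ univ) := hB.continuousOn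
  have hfd : ContinuousOn (fderiv ℝ (fun z : ℝ × ℝ => B z.1 z.2)) (Ioo a b ×ˢ univ) :=
    hB.continuousOn_fderiv_of_isOpen hopen le_rfl
  have hdiff : ∀ z ∈ Ioo a b ×ˢ (univ : Set ℝ), DifferentiableAt ℝ (fun z : ℝ × ℝ => B z.1 z.2) z :=
    fun z hz => (hB.differentiableOn (by norm_num)).differentiableAt (hopen.mem_nhds hz)
  -- derivative in `x`
  have hder : ∀ t ∈ Ioo a b, ∀ x, HasDerivAt (B t)
      (fderiv ℝ (fun z : ℝ × ℝ => B z.1 z.2) (t, x) (0, 1)) x := by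
    intro t ht x
    have h1 := (hdiff (t, x) ⟨ht, mem_univ _⟩).hasFDerivAt
    have h2 : HasDerivAt (fun y : ℝ => ((t, y) : ℝ × ℝ)) (0, 1) x :=
      (hasDerivAt_const x t).prodMk (hasDerivAt_id x)
    exact h1.comp_hasDerivAt x h2
  obtain ⟨M, hM⟩ := hcomp.exists_bound_of_continuousOn (hc.mono hsub)
  have hc2 : ContinuousOn (fun z : ℝ × ℝ =>
      fderiv ℝ (fun z : ℝ × ℝ => B z.1 z.2) z (0, 1)) (Ioo a b ×ˢ univ) :=
    hfd.clm_apply continuousOn_const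
  obtain ⟨L, hL⟩ := hcomp.exists_bound_of_continuousOn (hc2.mono hsub)
  refine ⟨M.toNNReal, L.toNNReal, fun t ht => ?_⟩
  have htab : t ∈ Ioo a b := ⟨hα.trans_le ht.1, ht.2.trans_lt hβ⟩
  have hp : Function.Periodic (B t) (2 * π) := hper t htab
  have hpi : (0 : ℝ) < 2 * π := by positivity
  constructor
  · intro x
    obtain ⟨y, hy, hxy⟩ := hp.exists_mem_Ico₀ hpi x
    rw [hxy]
    exact (hM (t, y) ⟨ht, ⟨hy.1, hy.2.le⟩⟩).trans (Real.le_coe_toNNReal M)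
  · have hd : Differentiable ℝ (B t) := fun x => (hder t htab x).differentiableAt
    refine lipschitzWith_of_nnnorm_deriv_le hd fun x => ?_
    have hpd : Function.Periodic (deriv (B t)) (2 * π) := by
      intro x
      have h1 : HasDerivAt (fun y => B t (y + 2 * π)) (deriv (B t) (x + 2 * π)) x := by
        have := (hd (x + 2 * π)).hasDerivAt
        exact this.comp_add_const x (2 * π)
      have h2 : (fun y => B t (y + 2 * π)) = B t := by funext y; exact hper t htab y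
      rw [h2] at h1
      exact h1.unique (hd x).hasDerivAt
    obtain ⟨y, hy, hxy⟩ := hpd.exists_mem_Ico₀ hpi x
    rw [hxy, (hder t htab y).deriv]
    have := (hL (t, y) ⟨ht, ⟨hy.1, hy.2.le⟩⟩).trans (Real.le_coe_toNNReal L)
    exact this

/-- local flow on a compact time interval -/
theorem local_flow {a b : ℝ} {B : ℝ → ℝ → ℝ} (hB : CS 1 a b B)
    (hper : ∀ t ∈ Ioo a b, ∀ x, B t (x + 2 * π) = B t x) {α β t0 : ℝ} (hα : a < α) (hβ : β < b)
    (ht0 : t0 ∈ Icc α β) (x₀ : ℝ) :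
    ∃ Φ : ℝ × ℝ → ℝ, (∀ x ∈ closedBall x₀ 1, Φ ⟨x, t0⟩ = x ∧
      ∀ t ∈ Icc α β, HasDerivWithinAt (fun s => Φ ⟨x, s⟩) (B t (Φ ⟨x, t⟩)) (Icc α β) t) ∧
      ContinuousOn Φ (closedBall x₀ 1 ×ˢ Icc α β) := by
  obtain ⟨M, L, hML⟩ := bounds hB hper hα hβ
  have hPL : IsPicardLindelof B (⟨t0, ht0⟩ : Icc α β) x₀
      (M * (β - α).toNNReal + 1) 1 M L := by
    refine ⟨fun t ht => (hML t ht).2.lipschitzOnWith, fun x _ => ?_, fun t ht x _ => (hML t ht).1 x, ?_⟩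
    · have hc : ContinuousOn (fun z : ℝ × ℝ => B z.1 z.2) (Ioo a b ×ˢ univ) := hB.continuousOn
      refine hc.comp (f := fun t : ℝ => ((t, x) : ℝ × ℝ)) (by fun_prop) ?_
      intro t ht
      exact ⟨⟨hα.trans_le ht.1, ht.2.trans_lt hβ⟩, mem_univ _⟩
    · have h0 : (((β - α).toNNReal : ℝ≥0) : ℝ) = β - α :=
        Real.coe_toNNReal _ (by linarith [ht0.1, ht0.2])
      have h1 : max (β - t0) (t0 - α) ≤ β - α :=
        max_le (by linarith [ht0.1]) (by linarith [ht0.2])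
      have h2 : (M : ℝ) * max (β - t0) (t0 - α) ≤ M * (β - α) :=
        mul_le_mul_of_nonneg_left h1 M.2
      push_cast
      rw [h0]
      linarith
  obtain ⟨Φ, h1, h2⟩ := hPL.exists_forall_mem_closedBall_eq_hasDerivWithinAt_continuousOn
  exact ⟨Φ, by simpa using h1, by simpa using h2⟩

/-- uniqueness -/
theorem uniq {a b : ℝ} {B : ℝ → ℝ → ℝ} (hB : CS 1 a b B)
    (hper : ∀ t ∈ Ioo a b, ∀ x, B t (x + 2 * π) = B t x) {α β t0 : ℝ} (hα : a < α) (hβ : β < b)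
    (ht0 : t0 ∈ Ioo α β) {f g : ℝ → ℝ} (hf : ∀ t ∈ Ioo α β, HasDerivAt f (B t (f t)) t)
    (hg : ∀ t ∈ Ioo α β, HasDerivAt g (B t (g t)) t) (h0 : f t0 = g t0) :
    ∀ t ∈ Ioo α β, f t = g t := by
  obtain ⟨M, L, hML⟩ := bounds hB hper hα hβ
  exact ODE_solution_unique_of_mem_Ioo (v := B) (s := fun _ => univ) (K := L)
    (fun t ht => (hML t (Ioo_subset_Icc_self ht)).2.lipschitzOnWith) ht0
    (fun t ht => ⟨hf t ht, mem_univ _⟩) (fun t ht => ⟨hg t ht, mem_univ _⟩) h0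

end Ode

open Ode Metric Filter Topology in
theorem ode : OdeStmt := by
  intro a b t0 B ht0 hB hper
  -- the interval around `t0` and `t`
  set A : ℝ → ℝ := fun t => (min t t0 + a) / 2 with hA
  set D : ℝ → ℝ := fun t => (max t t0 + b) / 2 with hD
  have hAa : ∀ t ∈ Ioo a b, a < A t := by
    intro t ht
    have : a < min t t0 := lt_min ht.1 ht0.1
    simp only [hA]; linarith
  have hAt : ∀ t ∈ Ioo a b, A t < t ∧ A t < t0 := by
    intro t ht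
    have h1 : a < min t t0 := lt_min ht.1 ht0.1
    have h2 : min t t0 ≤ t := min_le_left _ _
    have h3 : min t t0 ≤ t0 := min_le_right _ _
    simp only [hA]
    constructor <;> linarith
  have hDb : ∀ t ∈ Ioo a b, D t < b := by
    intro t ht
    have : max t t0 < b := max_lt ht.2 ht0.2
    simp only [hD]; linarith
  have hDt : ∀ t ∈ Ioo a b, t < D t ∧ t0 < D t := by
    intro t ht
    have h1 : max t t0 < b := max_lt ht.2 ht0.2
    have h2 : t ≤ max t t0 := le_max_left _ _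
    have h3 : t0 ≤ max t t0 := le_max_right _ _
    simp only [hD]
    constructor <;> linarith
  -- existence of a solution for every `t` and `x`
  have hex : ∀ t ∈ Ioo a b, ∀ x₀ : ℝ, ∃ Φ : ℝ × ℝ → ℝ, (∀ x ∈ closedBall x₀ 1, Φ ⟨x, t0⟩ = x ∧
      ∀ s ∈ Ioo (A t) (D t), HasDerivAt (fun s => Φ ⟨x, s⟩) (B s (Φ ⟨x, s⟩)) s) ∧
      ContinuousOn Φ (closedBall x₀ 1 ×ˢ Icc (A t) (D t)) := by
    intro t ht x₀
    obtain ⟨Φ, h1, h2⟩ := local_flow hB hper (hAa t ht) (hDb t ht)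
      ⟨(hAt t ht).2.le, (hDt t ht).2.le⟩ x₀
    refine ⟨Φ, fun x hx => ⟨(h1 x hx).1, fun s hs => ?_⟩, h2⟩
    exact ((h1 x hx).2 s (Ioo_subset_Icc_self hs)).hasDerivAt (Icc_mem_nhds hs.1 hs.2)
  have hex' : ∀ (t x : ℝ), ∃ ψ : ℝ → ℝ, t ∈ Ioo a b → ψ t0 = x ∧
      ∀ s ∈ Ioo (A t) (D t), HasDerivAt ψ (B s (ψ s)) s := by
    intro t x
    by_cases ht : t ∈ Ioo a b
    · obtain ⟨Φ, h1, _⟩ := hex t ht x
      exact ⟨fun s => Φ ⟨x, s⟩, fun _ => h1 x (mem_closedBall_self (by norm_num))⟩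
    · exact ⟨fun _ => 0, fun h => absurd h ht⟩
  choose S hS using hex'
  -- identification with any solution
  have key : ∀ (α β : ℝ) (ψ : ℝ → ℝ) (x : ℝ), a < α → β < b → t0 ∈ Ioo α β → ψ t0 = x →
      (∀ s ∈ Ioo α β, HasDerivAt ψ (B s (ψ s)) s) → ∀ t ∈ Ioo α β, S t x t = ψ t := by
    intro α β ψ x hα hβ h0 hψ0 hψ t ht
    have htab : t ∈ Ioo a b := ⟨hα.trans ht.1, ht.2.trans hβ⟩
    obtain ⟨s0, s1⟩ := hS t x htab
    refine uniq hB hper (α := max α (A t)) (β := min β (D t)) (t0 := t0)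
      (lt_max_of_lt_left hα) (min_lt_of_left_lt hβ)
      ⟨max_lt h0.1 (hAt t htab).2, lt_min h0.2 (hDt t htab).2⟩
      (fun s hs => s1 s ⟨(le_max_right _ _).trans_lt hs.1, hs.2.trans_le (min_le_right _ _)⟩)
      (fun s hs => hψ s ⟨(le_max_left _ _).trans_lt hs.1, hs.2.trans_le (min_le_left _ _)⟩)
      (by rw [s0, hψ0]) t
      ⟨max_lt ht.1 (hAt t htab).1, lt_min ht.2 (hDt t htab).1⟩
  refine ⟨fun t x => S t x t, ?_, ?_, ?_, ?_⟩
  · intro x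
    exact (hS t0 x ht0).1
  · intro t ht x
    obtain ⟨s0, s1⟩ := hS t x ht
    have hloc : (fun s => S s x s) =ᶠ[𝓝 t] S t x := by
      filter_upwards [Ioo_mem_nhds (hAt t ht).1 (hDt t ht).1] with s hs
      exact key (A t) (D t) (S t x) x (hAa t ht) (hDb t ht) ⟨(hAt t ht).2, (hDt t ht).2⟩ s0 s1 s hs
    exact (s1 t ⟨(hAt t ht).1, (hDt t ht).1⟩).congr_of_eventuallyEq hloc
  · rintro ⟨t, x⟩ ⟨ht, _⟩
    obtain ⟨Φ, h1, h2⟩ := hex t ht x
    have hmem : closedBall x 1 ×ˢ Icc (A t) (D t) ∈ 𝓝 ((x, t) : ℝ × ℝ) :=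
      prod_mem_nhds (closedBall_mem_nhds x one_pos) (Icc_mem_nhds (hAt t ht).1 (hDt t ht).1)
    have hc : ContinuousAt Φ (x, t) := h2.continuousAt hmem
    have hc' : ContinuousAt (fun z : ℝ × ℝ => Φ (z.2, z.1)) (t, x) :=
      ContinuousAt.comp (f := fun z : ℝ × ℝ => (z.2, z.1)) (x := (t, x)) hc (by fun_prop)
    refine ContinuousAt.continuousWithinAt (hc'.congr ?_)
    have hn : Ioo (A t) (D t) ×ˢ closedBall x 1 ∈ 𝓝 ((t, x) : ℝ × ℝ) :=
      prod_mem_nhds (Ioo_mem_nhds (hAt t ht).1 (hDt t ht).1) (closedBall_mem_nhds x one_pos)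
    filter_upwards [hn] with z hz
    obtain ⟨hz1, hz2⟩ := hz
    exact (key (A t) (D t) (fun s => Φ (z.2, s)) z.2 (hAa t ht) (hDb t ht)
      ⟨(hAt t ht).2, (hDt t ht).2⟩ (h1 z.2 hz2).1 (h1 z.2 hz2).2 z.1 hz1).symm
  · intro t ht x
    obtain ⟨s0, s1⟩ := hS t x ht
    have h1 : ∀ s ∈ Ioo (A t) (D t), HasDerivAt (fun s => S t x s + 2 * π)
        (B s (S t x s + 2 * π)) s := by
      intro s hs
      rw [hper s ⟨(hAa t ht).trans hs.1, hs.2.trans (hDb t ht)⟩]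
      exact (s1 s hs).add_const _
    exact key (A t) (D t) (fun s => S t x s + 2 * π) (x + 2 * π) (hAa t ht) (hDb t ht)
      ⟨(hAt t ht).2, (hDt t ht).2⟩ (by rw [s0]) h1 t ⟨(hAt t ht).1, (hDt t ht).1⟩

end Pool.Agent.Lib.MP_c60e08_gt.Geo
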