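import Pool.Agent.Lib.MP_c60e08_gt.GeoSpec

/-!
The derivative of the flow with respect to the initial value.
-/

namespace Pool.Agent.Lib.MP_c60e08_gt.Geo

open Real Set Pool.Agent.Lib.MP_c60e08_gt.Lm Filter Topology

namespace OdeDx

/-- the mean value formula -/
lemma mvf (f f' : ℝ → ℝ) (hf : ∀ x, HasDerivAt f (f' x) x) (hc : Continuous f') (q d : ℝ) :
    f (q + d) - f q = d * ∫ σ in (0 : ℝ)..1, f' (q + σ * d) := by
  have h1 : ∀ σ ∈ uIcc (0 : ℝ) 1, HasDerivAt (fun σ => f (q + σ * d)) (f' (q + σ * d) * d) σ := by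
    intro σ _
    have h2 : HasDerivAt (fun σ : ℝ => q + σ * d) d σ := by
      simpa using ((hasDerivAt_id σ).mul_const d).const_add q
    exact (hf (q + σ * d)).comp σ h2
  have h3 : IntervalIntegrable (fun σ => f' (q + σ * d) * d) MeasureTheory.volume 0 1 := by
    apply Continuous.intervalIntegrable
    fun_prop
  have h4 := intervalIntegral.integral_eq_sub_of_hasDerivAt h1 h3
  rw [intervalIntegral.integral_mul_const] at h4
  simp only [one_mul, zero_mul, add_zero] at h4
  rw [← h4]
  ring

end OdeDx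

theorem ode_dx : OdeDxStmt := by
  intro a b t0 B Bx φ ht0 hB hBxc hφ0 hφt hφc t ht x
  set α := min t0 t with hα
  set β := max t0 t with hβ
  have hαβ : α ≤ β := min_le_max
  have hsub : Icc α β ⊆ Ioo a b := by
    intro s hs
    exact ⟨lt_of_lt_of_le (lt_min ht0.1 ht.1) hs.1, lt_of_le_of_lt hs.2 (max_lt ht0.2 ht.2)⟩
  let P : ℝ → ℝ := fun s => (projIcc α β hαβ s : ℝ)
  have hPc : Continuous P := continuous_subtype_val.comp continuous_projIcc
  have hPm : ∀ s, P s ∈ Ioo a b := fun s => hsub (projIcc α β hαβ s).2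
  have hPid : ∀ s ∈ Icc α β, P s = s := fun s hs => by
    show ((projIcc α β hαβ s : Icc α β) : ℝ) = s
    rw [projIcc_of_mem hαβ hs]
  -- globally continuous versions
  have hBg : Continuous (fun z : ℝ × ℝ => Bx (P z.1) z.2) := by
    have h1 : Continuous (fun z : ℝ × ℝ => ((P z.1, z.2) : ℝ × ℝ)) :=
      (hPc.comp continuous_fst).prodMk continuous_snd
    exact hBxc.comp_continuous h1 (fun z => ⟨hPm z.1, mem_univ _⟩)
  have hφg : Continuous (fun z : ℝ × ℝ => φ (P z.1) z.2) := by
    have h1 : Continuous (fun z : ℝ × ℝ => ((P z.1, z.2) : ℝ × ℝ)) :=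
      (hPc.comp continuous_fst).prodMk continuous_snd
    exact hφc.comp_continuous h1 (fun z => ⟨hPm z.1, mem_univ _⟩)
  let Δ : ℝ → ℝ → ℝ := fun h s => φ (P s) (x + h) - φ (P s) x
  have hΔ : Continuous (fun z : ℝ × ℝ => Δ z.1 z.2) := by
    have h1 : Continuous (fun z : ℝ × ℝ => φ (P z.2) (x + z.1)) :=
      hφg.comp (continuous_snd.prodMk (continuous_const.add continuous_fst))
    have h2 : Continuous (fun z : ℝ × ℝ => φ (P z.2) x) :=
      hφg.comp (continuous_snd.prodMk continuous_const)
    exact h1.sub h2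
  let m : ℝ → ℝ → ℝ := fun h s => ∫ σ in (0 : ℝ)..1, Bx (P s) (φ (P s) x + σ * Δ h s)
  have hm : Continuous (Function.uncurry m) := by
    have h1 : Continuous (Function.uncurry
        (fun (z : ℝ × ℝ) (σ : ℝ) => Bx (P z.2) (φ (P z.2) x + σ * Δ z.1 z.2))) := by
      have h2 : Continuous (fun w : (ℝ × ℝ) × ℝ => φ (P w.1.2) x) :=
        hφg.comp ((continuous_snd.comp continuous_fst).prodMk continuous_const)
      have h3 : Continuous (fun w : (ℝ × ℝ) × ℝ => Δ w.1.1 w.1.2) := hΔ.comp continuous_fst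
      have h4 : Continuous (fun w : (ℝ × ℝ) × ℝ => φ (P w.1.2) x + w.2 * Δ w.1.1 w.1.2) :=
        h2.add (continuous_snd.mul h3)
      exact hBg.comp ((continuous_snd.comp continuous_fst).prodMk h4)
    exact intervalIntegral.continuous_parametric_intervalIntegral_of_continuous' h1 0 1
  -- the equation for the difference
  have hΔeq : ∀ h, ∀ s ∈ Icc α β,
      HasDerivAt (fun s => φ s (x + h) - φ s x) (m h s * (φ s (x + h) - φ s x)) s := by
    intro h s hs
    have hsI := hsub hs
    have h1 := (hφt s hsI (x + h)).sub (hφt s hsI x)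
    have hc : Continuous (Bx s) := by
      have : Continuous (fun y : ℝ => ((s, y) : ℝ × ℝ)) := by fun_prop
      exact hBxc.comp_continuous this (fun y => ⟨hsI, mem_univ _⟩)
    have h2 := OdeDx.mvf (B s) (Bx s) (hB s hsI) hc (φ s x) (φ s (x + h) - φ s x)
    have h3 : m h s = ∫ σ in (0 : ℝ)..1, Bx s (φ s x + σ * (φ s (x + h) - φ s x)) := by
      show (∫ σ in (0 : ℝ)..1, Bx (P s) (φ (P s) x + σ * (φ (P s) (x + h) - φ (P s) x))) = _
      rw [hPid s hs]
    have h4 : B s (φ s (x + h)) - B s (φ s x) = m h s * (φ s (x + h) - φ s x) := by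
      rw [h3, mul_comm, ← h2]
      congr 2
      ring
    rw [h4] at h1
    exact h1
  have ht0m : t0 ∈ Icc α β := ⟨min_le_left _ _, le_max_left _ _⟩
  have htm : t ∈ Icc α β := ⟨min_le_right _ _, le_max_right _ _⟩
  have hkey : ∀ h, φ t (x + h) - φ t x = h * exp (∫ s in t0..t, m h s) := by
    intro h
    have hmc : Continuous (m h) := hm.comp (continuous_const.prodMk continuous_id)
    have hE : ∀ s, HasDerivAt (fun s => exp (-∫ r in t0..s, m h r))
        (exp (-∫ r in t0..s, m h r) * (-(m h s))) s := by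
      intro s
      have h1 : HasDerivAt (fun s => ∫ r in t0..s, m h r) (m h s) s :=
        intervalIntegral.integral_hasDerivAt_right (hmc.intervalIntegrable _ _)
          (hmc.stronglyMeasurableAtFilter _ _) hmc.continuousAt
      exact h1.neg.exp
    have hF : ∀ s ∈ Icc α β, HasDerivWithinAt
        (fun s => (φ s (x + h) - φ s x) * exp (-∫ r in t0..s, m h r)) ((fun _ => (0 : ℝ)) s)
        (Icc α β) s := by
      intro s hs
      have h1 := ((hΔeq h s hs).mul (hE s)).hasDerivWithinAt (s := Icc α β)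
      refine h1.congr_deriv ?_
      ring
    have h2 := Convex.norm_image_sub_le_of_norm_hasDerivWithin_le (C := 0) hF
      (fun s _ => by simp) (convex_Icc α β) ht0m htm
    rw [zero_mul, norm_le_zero_iff, sub_eq_zero] at h2
    simp only [intervalIntegral.integral_same, neg_zero, exp_zero, mul_one, hφ0] at h2
    have h3 : x + h - x = h := by ring
    rw [h3] at h2
    have h4 : exp (-∫ r in t0..t, m h r) * exp (∫ r in t0..t, m h r) = 1 := by
      rw [← exp_add, neg_add_cancel, exp_zero]
    calc φ t (x + h) - φ t x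
        = (φ t (x + h) - φ t x) * (exp (-∫ r in t0..t, m h r) * exp (∫ r in t0..t, m h r)) := by
          rw [h4, mul_one]
      _ = h * exp (∫ s in t0..t, m h s) := by rw [← mul_assoc, h2]
  -- the limit
  have hcont : Continuous (fun h => exp (∫ s in t0..t, m h s)) :=
    continuous_exp.comp
      (intervalIntegral.continuous_parametric_intervalIntegral_of_continuous' hm t0 t)
  have h0 : (∫ s in t0..t, m 0 s) = ∫ s in t0..t, Bx s (φ s x) := by
    apply intervalIntegral.integral_congr
    intro s hs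
    have hs' : s ∈ Icc α β := hs
    show (∫ σ in (0 : ℝ)..1, Bx (P s) (φ (P s) x + σ * (φ (P s) (x + 0) - φ (P s) x))) = _
    rw [hPid s hs']
    simp
  rw [hasDerivAt_iff_tendsto_slope_zero]
  have h1 : Tendsto (fun h => exp (∫ s in t0..t, m h s)) (𝓝[≠] 0)
      (𝓝 (exp (∫ s in t0..t, Bx s (φ s x)))) := by
    rw [← h0]
    exact (hcont.tendsto 0).mono_left nhdsWithin_le_nhds
  refine h1.congr' ?_
  filter_upwards [self_mem_nhdsWithin] with h hh
  rw [hkey h, smul_eq_mul, inv_mul_cancel_left₀ hh]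

end Pool.Agent.Lib.MP_c60e08_gt.Geo
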