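import Pool.Agent.Lib.MP_c60e08_gt.GeoSpec

/-!
# First and second derivatives of the torus over a plane curve
-/

namespace Pool.Agent.Lib.MP_c60e08_gt.Geo

open Real Set Pool.Agent.Lib.MP_c60e08_gt.Lm

open scoped ComplexConjugate

namespace Pd

/-- The linear forms in the exponents. -/
noncomputable def ell : Fin 3 → ((Fin 3 → ℝ) →L[ℝ] ℂ) :=
  ![(ContinuousLinearMap.proj (R := ℝ) (φ := fun _ : Fin 3 => ℝ) 1).smulRight Complex.I,
    (ContinuousLinearMap.proj (R := ℝ) (φ := fun _ : Fin 3 => ℝ) 2).smulRight Complex.I,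
    -((ContinuousLinearMap.proj (R := ℝ) (φ := fun _ : Fin 3 => ℝ) 1).smulRight Complex.I +
      (ContinuousLinearMap.proj (R := ℝ) (φ := fun _ : Fin 3 => ℝ) 2).smulRight Complex.I)]

theorem tU_eq (x : Fin 3 → ℝ) (j : Fin 3) : tU x j = Complex.exp (ell j x) := by
  fin_cases j
  · simp [tU, ell]
  · simp [tU, ell]
  · simp only [tU, ell]
    simp
    ring_nf

/-- Partial derivatives of `d (x 0) * u`. -/
theorem pd_gen (d d1 : Fin 3 → ℝ → ℂ) (hd : ∀ j s, HasDerivAt (d j) (d1 j s) s)
    (x : Fin 3 → ℝ) (i : Fin 3) :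
    pd (fun x j => d j (x 0) * tU x j) i x
      = fun j => ((if i = 0 then d1 j (x 0) else 0) + d j (x 0) * ell j (Pi.single i 1)) *
        tU x j := by
  have hp : HasFDerivAt (fun x : Fin 3 → ℝ => x 0)
      (ContinuousLinearMap.proj (R := ℝ) (φ := fun _ : Fin 3 => ℝ) 0) x :=
    (ContinuousLinearMap.proj (R := ℝ) (φ := fun _ : Fin 3 => ℝ) 0).hasFDerivAt
  have h1 : ∀ j, HasFDerivAt (fun x : Fin 3 → ℝ => d j (x 0) * tU x j)
      (d j (x 0) • (Complex.exp (ell j x) • ell j) + Complex.exp (ell j x) •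
        (ContinuousLinearMap.proj (R := ℝ) (φ := fun _ : Fin 3 => ℝ) 0).smulRight
          (d1 j (x 0))) x := by
    intro j
    have a1 : HasFDerivAt (fun x : Fin 3 → ℝ => d j (x 0))
        ((ContinuousLinearMap.proj (R := ℝ) (φ := fun _ : Fin 3 => ℝ) 0).smulRight
          (d1 j (x 0))) x := by
      refine ((hd j (x 0)).hasFDerivAt.comp x hp).congr_fderiv ?_
      apply ContinuousLinearMap.ext
      intro v
      simp
    have a2 : HasFDerivAt (fun x : Fin 3 → ℝ => Complex.exp (ell j x))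
        (Complex.exp (ell j x) • ell j) x := (ell j).hasFDerivAt.cexp
    have a3 := a1.mul a2
    simp only [tU_eq]
    exact a3
  have h2 := hasFDerivAt_pi.2 h1
  rw [pd, h2.fderiv]
  funext j
  simp only [ContinuousLinearMap.coe_pi', _root_.add_apply, _root_.smul_apply, smul_eq_mul, tU_eq]
  by_cases hi : i = 0
  · subst hi
    simp
    ring
  · simp [hi]
    ring

theorem ell_single (j i : Fin 3) : ell j (Pi.single i 1)
    = (![![0, Complex.I, 0], ![0, 0, Complex.I], ![0, -Complex.I, -Complex.I]] :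
      Fin 3 → Fin 3 → ℂ) j i := by
  fin_cases j <;> fin_cases i <;> simp [ell]

end Pd

/-- First derivatives. -/
theorem pd1 : PdStmt := by
  intro c c1 hc x i
  have h := Pd.pd_gen (fun _ => c) (fun _ => c1) (fun _ => hc) x i
  have e : tor c = fun x j => c (x 0) * tU x j := rfl
  rw [e, h]
  funext j
  simp only [Pd.ell_single]
  fin_cases i <;> fin_cases j <;>
    simp [tP, -mul_eq_mul_right_iff, -mul_eq_mul_left_iff, -mul_eq_zero, -zero_eq_mul] <;> ring

/-- The coefficient functions of the first derivatives. -/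
noncomputable def Pd.D (c c1 : ℝ → ℂ) : Fin 3 → Fin 3 → ℝ → ℂ :=
  ![![c1, c1, c1],
    ![fun s => Complex.I * c s, fun _ => 0, fun s => -(Complex.I * c s)],
    ![fun _ => 0, fun s => Complex.I * c s, fun s => -(Complex.I * c s)]]

/-- Second derivatives. -/
theorem pd2 : Pd2Stmt := by
  intro c c1 c2 hc hc1 x i j
  have e : pd (tor c) j = fun x k => Pd.D c c1 j k (x 0) * tU x k := by
    funext x
    rw [pd1 c c1 hc x j]
    funext k
    fin_cases j <;> fin_cases k <;> simp [tP, Pd.D]
  have hD : ∀ k s, HasDerivAt (Pd.D c c1 j k) (Pd.D c1 c2 j k s) s := by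
    intro k s
    fin_cases j <;> fin_cases k
    · exact hc1 s
    · exact hc1 s
    · exact hc1 s
    · exact (hc s).const_mul _
    · exact hasDerivAt_const _ _
    · exact ((hc s).const_mul _).neg
    · exact hasDerivAt_const _ _
    · exact (hc s).const_mul _
    · exact ((hc s).const_mul _).neg
  rw [e, Pd.pd_gen _ _ hD x i]
  funext k
  simp only [Pd.ell_single]
  have hI := Complex.I_mul_I
  have hI' : ∀ z : ℂ, Complex.I * z * Complex.I = -z := by
    intro z
    linear_combination z * hI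
  fin_cases i <;> fin_cases j <;> fin_cases k <;>
    simp [tQ, Pd.D, hI', -mul_eq_mul_right_iff, -mul_eq_mul_left_iff, -mul_eq_zero,
      -zero_eq_mul] <;> ring

end Pool.Agent.Lib.MP_c60e08_gt.Geo
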