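import Pool.Agent.Lib.MP_c60e08_gt.GeoSpec

/-!
Module POLARALG of the geometry part of MP_c60e08_gt: the curve `1 - exp (y + i phi)` in the
normal gauge moves by its speed.
-/

namespace Pool.Agent.Lib.MP_c60e08_gt.Geo

open Real Set Pool.Agent.Lib.MP_c60e08_gt.Lm

open scoped ComplexConjugate

namespace PolarAlg

theorem normSq_exp' (a q : ℝ) :
    Complex.normSq (Complex.exp (a + q * Complex.I)) = exp (2 * a) := by
  rw [Complex.normSq_eq_norm_sq, Complex.norm_exp]
  simp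
  rw [← Real.exp_nat_mul]
  norm_num

theorem re_exp' (a q : ℝ) :
    (Complex.exp (a + q * Complex.I)).re = exp a * cos q := by
  rw [Complex.exp_re]; simp

theorem im_exp' (a q : ℝ) :
    (Complex.exp (a + q * Complex.I)).im = exp a * sin q := by
  rw [Complex.exp_im]; simp

theorem normSq_lin (a1 : ℝ) : Complex.normSq ((a1 : ℂ) + Complex.I) = 1 + a1 ^ 2 := by
  rw [Complex.normSq_apply]; simp; ring

theorem im_inv_lin (a1 : ℝ) : (((a1 : ℂ) + Complex.I)⁻¹).im = -(1 / (1 + a1 ^ 2)) := by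
  rw [Complex.inv_im, normSq_lin]; simp
  ring

end PolarAlg

open PolarAlg in
theorem polar_alg : PolarAlgStmt := by
  intro a a1 a2 at' q q1 q2 qt hq1 hu hat hqt E Z Z1 Z2 Zt hE hZ hZ1 hZ2 hZt
  have hD : (0 : ℝ) < 1 + a1 ^ 2 := by positivity
  have hE0 : E ≠ 0 := by rw [hE]; exact Complex.exp_ne_zero _
  have hL0 : (a1 : ℂ) + Complex.I ≠ 0 := by
    intro h
    have := congrArg Complex.im h
    simp at this
  have hq1c : (q1 : ℂ) ≠ 0 := by exact_mod_cast hq1
  have hZ10 : Z1 ≠ 0 := by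
    rw [hZ1]
    exact neg_ne_zero.mpr (mul_ne_zero hE0 (mul_ne_zero hL0 hq1c))
  have hnE : Complex.normSq E = exp (2 * a) := by rw [hE]; exact normSq_exp' a q
  have hre : E.re = exp a * cos q := by rw [hE]; exact re_exp' a q
  have him : E.im = exp a * sin q := by rw [hE]; exact im_exp' a q
  have hnZ : Complex.normSq Z = uu q a := by
    rw [hZ, Complex.normSq_apply, uu]
    simp only [Complex.sub_re, Complex.sub_im, Complex.one_re, Complex.one_im]
    rw [hre, him]
    have h2 : exp (2 * a) = exp a * exp a := by rw [← Real.exp_add]; ring_nf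
    have hsc := Real.sin_sq_add_cos_sq q
    rw [h2]
    linear_combination (exp a * exp a) * hsc
  have hnZ1 : Complex.normSq Z1 = exp (2 * a) * ((1 + a1 ^ 2) * q1 ^ 2) := by
    rw [hZ1, Complex.normSq_neg, Complex.normSq_mul, Complex.normSq_mul, normSq_lin, hnE,
      Complex.normSq_ofReal]
    ring
  have hdiv : Z2 / Z1 = ((a1 : ℂ) + Complex.I) * q1 + (a2 * q1 : ℝ) * ((a1 : ℂ) + Complex.I)⁻¹
      + (q2 / q1 : ℝ) := by
    rw [hZ2, hZ1]
    push_cast
    field_simp
  have himd : (Z2 / Z1).im = q1 * (1 - a2 / (1 + a1 ^ 2)) := by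
    rw [hdiv]
    simp only [Complex.add_im, Complex.mul_im, Complex.ofReal_im, Complex.ofReal_re,
      Complex.add_re, Complex.I_im, Complex.I_re, im_inv_lin]
    ring
  have hDc : (1 : ℂ) + (a1 : ℂ) ^ 2 ≠ 0 := by exact_mod_cast hD.ne'
  have hexp : exp (2 * a) ≠ 0 := (Real.exp_pos _).ne'
  have hZt' : Zt = Complex.I * E * ((a1 : ℂ) + Complex.I) * ((at' / (1 + a1 ^ 2) : ℝ) : ℂ) := by
    rw [hZt, hqt]
    push_cast
    field_simp
    ring_nf
    rw [Complex.I_sq]
    ring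
  refine ⟨hnZ, hZ10, ?_, ?_, ?_⟩
  · rw [hZt', hnZ, himd, hnZ1, hZ1, hat]
    have : (q1 * (1 - a2 / (1 + a1 ^ 2)) / (exp (2 * a) * ((1 + a1 ^ 2) * q1 ^ 2)) : ℝ)
        = exp (-(2 * a)) * (1 - a2 / (1 + a1 ^ 2)) / ((1 + a1 ^ 2) * q1) := by
      rw [Real.exp_neg]
      field_simp
    rw [this]
    push_cast
    field_simp
    ring
  · rw [hZt', Complex.normSq_mul, Complex.normSq_mul, Complex.normSq_mul, normSq_lin, hnE,
      Complex.normSq_ofReal, Complex.normSq_I, hat]
    have hs : √(1 + a1 ^ 2) ^ 2 = 1 + a1 ^ 2 := Real.sq_sqrt hD.le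
    have he : exp (2 * a) = exp a ^ 2 := by rw [← Real.exp_nat_mul]; norm_num
    have he' : exp (-(2 * a)) = (exp a ^ 2)⁻¹ := by rw [Real.exp_neg, he]
    rw [div_pow, mul_pow (exp a), hs, he, he']
    have hea : exp a ≠ 0 := (Real.exp_pos _).ne'
    field_simp
    ring
  · intro hq ha1
    have hEr : E = ((exp a : ℝ) : ℂ) := by
      rw [hE, hq]; push_cast; simp
    rw [hZ, hZ1, hEr, ha1]
    simp
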