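import Pool.Agent.Lib.MP_c60e08_gt.GeoSpec

/-!
# A smooth cube root of `1 - exp (A + i Phi)`
-/

set_option autoImplicit false

namespace Pool.Agent.Lib.MP_c60e08_gt.Geo

open Real Set Filter Topology Function Pool.Agent.Lib.MP_c60e08_gt.Lm

private lemma root_re (A Φ : ℝ) : (zZ A Φ).re = 1 - exp A * cos Φ := by
  simp [zZ, Complex.exp_re]

private lemma root_im (A Φ : ℝ) : (zZ A Φ).im = -(exp A * sin Φ) := by
  simp [zZ, Complex.exp_im]

private lemma root_slit (A Φ : ℝ) (h : sin Φ = 0 → exp A * cos Φ < 1) :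
    zZ A Φ ∈ Complex.slitPlane := by
  rw [Complex.mem_slitPlane_iff, root_re, root_im]
  by_cases hs : sin Φ = 0
  · left
    have := h hs
    linarith
  · right
    have := (exp_pos A).ne'
    simpa using hs

theorem root : RootStmt := by
  intro a b A Φ hA hΦ h
  have hsl : ∀ t ∈ Ioo a b, ∀ x, zZ (A t x) (Φ t x) ∈ Complex.slitPlane :=
    fun t ht x => root_slit _ _ (h t ht x)
  refine ⟨fun w => Complex.exp (Complex.log w / 3), ?_, ?_, ?_⟩
  · intro t ht x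
    have hne : zZ (A t x) (Φ t x) ≠ 0 := Complex.slitPlane_ne_zero (hsl t ht x)
    have : Complex.exp (Complex.log (zZ (A t x) (Φ t x)) / 3) ^ 3 =
        Complex.exp (3 * (Complex.log (zZ (A t x) (Φ t x)) / 3)) := by
      rw [← Complex.exp_nat_mul]
      norm_num
    rw [this]
    rw [mul_div_cancel₀ _ (by norm_num : (3 : ℂ) ≠ 0), Complex.exp_log hne]
  · intro t ht x
    exact Complex.slitPlane_ne_zero (hsl t ht x)
  · have hA' : ContDiffOn ℝ (⊤ : ℕ∞) (fun z : ℝ × ℝ => ((A z.1 z.2 : ℝ) : ℂ))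
        (Ioo a b ×ˢ univ) := Complex.ofRealCLM.contDiff.comp_contDiffOn hA
    have hΦ' : ContDiffOn ℝ (⊤ : ℕ∞) (fun z : ℝ × ℝ => ((Φ z.1 z.2 : ℝ) : ℂ))
        (Ioo a b ×ˢ univ) := Complex.ofRealCLM.contDiff.comp_contDiffOn hΦ
    have hZ : ContDiffOn ℝ (⊤ : ℕ∞) (fun z : ℝ × ℝ => zZ (A z.1 z.2) (Φ z.1 z.2))
        (Ioo a b ×ˢ univ) := by
      unfold zZ
      exact contDiffOn_const.sub (hA'.add (hΦ'.mul contDiffOn_const)).cexp
    have hL : ContDiffOn ℝ (⊤ : ℕ∞)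
        (fun z : ℝ × ℝ => Complex.log (zZ (A z.1 z.2) (Φ z.1 z.2))) (Ioo a b ×ˢ univ) := by
      intro z hz
      have h1 : ContDiffAt ℝ (⊤ : ℕ∞) Complex.log (zZ (A z.1 z.2) (Φ z.1 z.2)) :=
        (Complex.contDiffAt_log (hsl z.1 hz.1 z.2)).restrict_scalars ℝ
      exact h1.comp_contDiffWithinAt z (hZ z hz)
    exact (hL.div_const 3).cexp

end Pool.Agent.Lib.MP_c60e08_gt.Geo
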