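import Pool.Agent.Lib.MP_c60e08_gt.GeoSpec

/-!
From the equation of `Z` to the equation of its cube root.
-/

namespace Pool.Agent.Lib.MP_c60e08_gt.Geo

open Real Set Pool.Agent.Lib.MP_c60e08_gt.Lm

open scoped ComplexConjugate

namespace Speed

lemma fS_cube (N : ℝ) (hN : 0 ≤ N) : fS (N ^ 3) = 3 * N ^ 2 := by
  have h1 : (N ^ 3) ^ ((2 : ℝ) / 3) = N ^ 2 := by
    rw [← Real.rpow_natCast N 3, ← Real.rpow_mul hN, ← Real.rpow_natCast N 2]
    norm_num
  unfold fS
  rw [h1]

lemma im_div' (z w : ℂ) : (z / w).im = (z * conj w).im / Complex.normSq w := by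
  rw [Complex.div_im, Complex.mul_im, Complex.conj_re, Complex.conj_im]
  ring

end Speed

theorem speed : SpeedStmt := by
  intro c c1 c2 ct Z Z1 Z2 Zt hc hc1 hZ hZ1 hZ2 hZt hE
  have hN : 0 < Complex.normSq c := Complex.normSq_pos.mpr hc
  have hM : 0 < Complex.normSq c1 := Complex.normSq_pos.mpr hc1
  have hNZ : Complex.normSq Z = Complex.normSq c ^ 3 := by rw [← hZ, map_pow]
  have hfS : fS (Complex.normSq Z) = 3 * Complex.normSq c ^ 2 := by
    rw [hNZ, Speed.fS_cube _ hN.le]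
  have hn3 : Complex.normSq (3 : ℂ) = 9 := by
    rw [show (3 : ℂ) = ((3 : ℝ) : ℂ) by norm_num, Complex.normSq_ofReal]
    norm_num
  have hNZ1 : Complex.normSq Z1 = 9 * Complex.normSq c ^ 2 * Complex.normSq c1 := by
    rw [← hZ1, map_mul, map_mul, map_pow, hn3]
  have hquot : Z2 / Z1 = c2 / c1 + 2 * (c1 / c) := by
    rw [← hZ1, ← hZ2]
    field_simp
    ring
  have hconj : (c1 * conj c).im = -(c * conj c1).im := by
    rw [Complex.mul_im, Complex.mul_im, Complex.conj_re, Complex.conj_im, Complex.conj_re,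
      Complex.conj_im]
    ring
  have him : (Z2 / Z1).im = (c2 * conj c1).im / Complex.normSq c1
      - 2 * ((c * conj c1).im / Complex.normSq c) := by
    rw [hquot, Complex.add_im, Speed.im_div', show (2 : ℂ) * (c1 / c) = ((2 : ℝ) : ℂ) * (c1 / c) by
      norm_num, Complex.im_ofReal_mul, Speed.im_div', hconj]
    ring
  refine ⟨?_, ?_, hNZ.symm⟩
  · have h3c : (3 : ℂ) * c ^ 2 ≠ 0 := mul_ne_zero (by norm_num) (pow_ne_zero _ hc)
    apply mul_left_cancel₀ h3c
    rw [hZt, hE, hfS, him, hNZ1, ← hZ1]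
    unfold spd
    push_cast
    have hN' : (Complex.normSq c : ℂ) ≠ 0 := by exact_mod_cast hN.ne'
    have hM' : (Complex.normSq c1 : ℂ) ≠ 0 := by exact_mod_cast hM.ne'
    field_simp
    ring
  · rw [hfS, ← hZt, map_mul, map_mul, map_pow, hn3]
    ring

end Pool.Agent.Lib.MP_c60e08_gt.Geo
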