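import Pool.Agent.Lib.MP_c60e08_gt.Geo.Part
import Pool.Agent.Lib.MP_c60e08_gt.Geo.IntG
import Pool.Agent.Lib.MP_c60e08_gt.Geo.Ode
import Pool.Agent.Lib.MP_c60e08_gt.Geo.OdeDx
import Pool.Agent.Lib.MP_c60e08_gt.Geo.Gauge
import Pool.Agent.Lib.MP_c60e08_gt.Geo.Pd
import Pool.Agent.Lib.MP_c60e08_gt.Geo.Gram
import Pool.Agent.Lib.MP_c60e08_gt.Geo.Mc
import Pool.Agent.Lib.MP_c60e08_gt.Geo.Ns
import Pool.Agent.Lib.MP_c60e08_gt.Geo.SyLi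
import Pool.Agent.Lib.MP_c60e08_gt.Geo.Root
import Pool.Agent.Lib.MP_c60e08_gt.Geo.Speed
import Pool.Agent.Lib.MP_c60e08_gt.Geo.PolarAlg
import Pool.Agent.Lib.MP_c60e08_gt.Geo.GB
import Pool.Agent.Lib.MP_c60e08_gt.Geo.Curve
import Pool.Agent.Lib.MP_c60e08_gt.Geo.Fin

/-!
The geometry part of MP_c60e08_gt, assembled: `geo : SmoothStmt → GeoStmt`.
-/

namespace Pool.Agent.Lib.MP_c60e08_gt.Geo

open Pool.Agent.Lib.MP_c60e08_gt.Lm

theorem geo : SmoothStmt → GeoStmt :=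
  fin (gauge part (int_smooth part) ode ode_dx) gb (curve root speed polar_alg gb) pd1 pd2
    (mc gram_inv) (ns gram_inv) sy li

end Pool.Agent.Lib.MP_c60e08_gt.Geo
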