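import Pool.Agent.Lib.MP_c60e08_gt.GeoSpec

/-!
# Joint smoothness from partial derivatives
-/

set_option autoImplicit false

namespace Pool.Agent.Lib.MP_c60e08_gt.Geo

open Real Set Filter Topology Function Pool.Agent.Lib.MP_c60e08_gt.Lm

private lemma part_isOpen (a b : ℝ) : IsOpen (Ioo a b ×ˢ (univ : Set ℝ)) :=
  isOpen_Ioo.prod isOpen_univ

private lemma part_hasFDerivAt (a b : ℝ) (n : ℕ) (G Gt Gx : ℝ → ℝ → ℝ)
    (h1 : ∀ t ∈ Ioo a b, ∀ x, HasDerivAt (fun s => G s x) (Gt t x) t)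
    (h2 : ∀ t ∈ Ioo a b, ∀ x, HasDerivAt (G t) (Gx t x) x)
    (h3 : CS n a b Gt) (h4 : CS n a b Gx) (z : ℝ × ℝ) (hz : z ∈ Ioo a b ×ˢ (univ : Set ℝ)) :
    HasFDerivAt (fun z : ℝ × ℝ => G z.1 z.2)
      ((ContinuousLinearMap.toSpanSingleton ℝ (Gt z.1 z.2)).coprod
        (ContinuousLinearMap.toSpanSingleton ℝ (Gx z.1 z.2))) z := by
  have hn : Ioo a b ×ˢ (univ : Set ℝ) ∈ 𝓝 z := (part_isOpen a b).mem_nhds hz
  have hc1 : ContinuousAt (fun z : ℝ × ℝ => Gt z.1 z.2) z :=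
    (h3.continuousOn z hz).continuousAt hn
  have hc2 : ContinuousAt (fun z : ℝ × ℝ => Gx z.1 z.2) z :=
    (h4.continuousOn z hz).continuousAt hn
  have hL : Continuous (fun c : ℝ => ContinuousLinearMap.toSpanSingleton ℝ c) :=
    (ContinuousLinearMap.toSpanSingletonCLE (𝕜 := ℝ) (E := ℝ)).continuous
  have key := hasStrictFDerivAt_uncurry_coprod (𝕜 := ℝ) (u := z) (f := G)
    (f₁ := fun t x => ContinuousLinearMap.toSpanSingleton ℝ (Gt t x))
    (f₂ := fun t x => ContinuousLinearMap.toSpanSingleton ℝ (Gx t x))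
    (by
      filter_upwards [hn] with v hv
      exact (h1 v.1 hv.1 v.2).hasFDerivAt)
    (by
      filter_upwards [hn] with v hv
      exact (h2 v.1 hv.1 v.2).hasFDerivAt)
    (hL.continuousAt.comp hc1) (hL.continuousAt.comp hc2)
  exact key.hasFDerivAt

theorem part : PartStmt := by
  intro a b n G Gt Gx h1 h2 h3 h4
  unfold CS
  have hD := part_hasFDerivAt a b n G Gt Gx h1 h2 h3 h4
  have e : ((n + 1 : ℕ) : WithTop ℕ∞) = (n : WithTop ℕ∞) + 1 := by push_cast; rfl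
  rw [e, contDiffOn_succ_iff_fderiv_of_isOpen (part_isOpen a b)]
  refine ⟨fun z hz => (hD z hz).differentiableAt.differentiableWithinAt, ?_, ?_⟩
  · intro h
    exact absurd h (by simp)
  · have hs : ContDiffOn ℝ n (fun z : ℝ × ℝ => Gt z.1 z.2 • ContinuousLinearMap.fst ℝ ℝ ℝ +
        Gx z.1 z.2 • ContinuousLinearMap.snd ℝ ℝ ℝ) (Ioo a b ×ˢ (univ : Set ℝ)) :=
      (ContDiffOn.smul h3 contDiffOn_const).add (ContDiffOn.smul h4 contDiffOn_const)
    apply hs.congr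
    intro z hz
    rw [(hD z hz).fderiv]
    apply ContinuousLinearMap.ext
    intro w
    simp [ContinuousLinearMap.toSpanSingleton_apply, mul_comm]

end Pool.Agent.Lib.MP_c60e08_gt.Geo
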