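import Pool.Agent.Lib.MP_c60e08_gt.GeoSpec

/-!
The torus is Lagrangian and immersed.
-/

namespace Pool.Agent.Lib.MP_c60e08_gt.Geo

open Real Set Pool.Agent.Lib.MP_c60e08_gt.Lm

open scoped ComplexConjugate

theorem sy : SyStmt := by
  intro u c c1 hu i j
  have h0 := hu 0
  have h1 := hu 1
  have h2 := hu 2
  rw [Complex.normSq_apply] at h0 h1 h2
  fin_cases i <;> fin_cases j <;>
    simp [symp, ip, tP, Fin.sum_univ_three, Complex.mul_re, Complex.mul_im] <;>
    first
    | ring1
    | linear_combination (c1.re * c.re + c1.im * c.im) * (h0 - h2)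
    | linear_combination (c1.re * c.re + c1.im * c.im) * (h1 - h2)
    | linear_combination (-(c1.re * c.re + c1.im * c.im)) * (h0 - h2)
    | linear_combination (-(c1.re * c.re + c1.im * c.im)) * (h1 - h2)

theorem li : LiStmt := by
  intro u c c1 hu hc hc1
  have hu0 : ∀ j, u j ≠ 0 := by
    intro j h
    have := hu j
    rw [h] at this
    simp at this
  rw [Fintype.linearIndependent_iff]
  intro a ha
  rw [Fin.sum_univ_three] at ha
  have e0 := congrFun ha 0
  have e1 := congrFun ha 1
  have e2 := congrFun ha 2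
  simp only [tP, Pi.add_apply, Pi.smul_apply, Complex.real_smul, Matrix.cons_val_zero,
    Matrix.cons_val_one, Matrix.cons_val, Pi.zero_apply] at e0 e1 e2
  have f0 : (a 0 : ℂ) * c1 + a 1 * (Complex.I * c) = 0 := by
    apply (mul_left_inj' (hu0 0)).1
    linear_combination e0
  have f1 : (a 0 : ℂ) * c1 + a 2 * (Complex.I * c) = 0 := by
    apply (mul_left_inj' (hu0 1)).1
    linear_combination e1
  have f2 : (a 0 : ℂ) * c1 - (a 1 + a 2) * (Complex.I * c) = 0 := by
    apply (mul_left_inj' (hu0 2)).1
    linear_combination e2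
  have hIc : Complex.I * c ≠ 0 := mul_ne_zero Complex.I_ne_zero hc
  have g1 : ((a 1 : ℂ) - a 2) = 0 := by
    apply (mul_left_inj' hIc).1
    linear_combination f0 - f1
  have g2 : (2 * (a 1 : ℂ) + a 2) = 0 := by
    apply (mul_left_inj' hIc).1
    linear_combination f0 - f2
  have a1 : (a 1 : ℂ) = 0 := by linear_combination (g1 + g2) / 3
  have a2 : (a 2 : ℂ) = 0 := by linear_combination a1 - g1
  have a0 : (a 0 : ℂ) = 0 := by
    apply (mul_left_inj' hc1).1
    rw [a1] at f0
    linear_combination f0
  intro i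
  fin_cases i
  · exact_mod_cast a0
  · exact_mod_cast a1
  · exact_mod_cast a2

end Pool.Agent.Lib.MP_c60e08_gt.Geo
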